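import Mathlib
import Pool.Agent.Helper33.Meander.Official

/-!
# Project MB (MP_fda85d): definitions

A meander or semi-meander with `N` crossings is encoded by a matching `a` of the `2 N` sides of the
crossings.  The crossings are numbered `0, ..., N - 1` (`0` next to the tip of the ray); the upper
side of the crossing `i` is the integer `i`, its lower side is `-1 - i`.  So the sides are the
integers in `[-N, N)`, and the other side of the crossing of `z` is `-1 - z`.
-/

namespace Pool.Agent.Helper50.MB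

open Pool.Agent.Helper33.Meander

/-- `a` is a non-crossing perfect matching of the integers in `[l, h)` (and the identity
outside). -/
structure NCI (l h : ℤ) (a : ℤ → ℤ) : Prop where
  inv : ∀ z, a (a z) = z
  out : ∀ z, (z < l ∨ h ≤ z) → a z = z
  ne : ∀ z, l ≤ z → z < h → a z ≠ z
  nc : ∀ x y, x < y → y < a x → a y < a x

/-- `x` and `y` are joined by steps of `a` and `r`. -/
def Conn (a r : ℤ → ℤ) : ℤ → ℤ → Prop :=
  Relation.ReflTransGen (fun s t => t = a s ∨ t = r s)

/-- All integers in `[l, h)` are joined by steps of `a` and `r`. -/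
def CI (l h : ℤ) (a r : ℤ → ℤ) : Prop :=
  ∀ x y, l ≤ x → x < h → l ≤ y → y < h → Conn a r x y

/-- `a` is a semi-meander with `N` crossings. -/
structure SZ (N : ℕ) (a : ℤ → ℤ) : Prop where
  nci : NCI (-(N : ℤ)) N a
  con : CI (-(N : ℤ)) N a (fun z => -1 - z)

/-- No arc goes around the tip: the semi-meander is a meander. -/
def HF (a : ℤ → ℤ) : Prop := ∀ z, 0 ≤ z ↔ 0 ≤ a z

/-- Semi-meanders with `N` crossings, and (`h = true`) meanders with `N` crossings. -/
def T (h : Bool) (N : ℕ) : Type := {a : ℤ → ℤ // SZ N a ∧ (h = true → HF a)}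

/-- Their number. -/
noncomputable def cT (h : Bool) (N : ℕ) : ℕ := Nat.card (T h N)

/-- The number of semi-meanders of order `n`: the ray is cut open, so that its `n` crossings
become `2 n` points on a line, the points `x` and `2 n - 1 - x` being the two sides of one
crossing; a semi-meander is a non-crossing perfect matching of the `2 n` points which forms a
single cycle together with the matching `x ↔ 2 n - 1 - x`. -/
noncomputable def semimeanders (n : ℕ) : ℕ :=
  Nat.card {a : Fin (2 * n) → Fin (2 * n) // NCMatching a ∧ SingleCycle a Fin.rev}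

/-- The crossing of a side. -/
def cr (z : ℤ) : ℕ := if 0 ≤ z then z.toNat else (-1 - z).toNat

/-- The map of sides induced by a map of crossings. -/
def lft (io : ℕ → ℕ) (z : ℤ) : ℤ :=
  if 0 ≤ z then (io z.toNat : ℤ) else -1 - (io (-1 - z).toNat : ℤ)

/-! ### Multigraphs -/

/-- `e` joins `s e` and `t e`. -/
def Adj {V E : Type} (s t : E → V) (a b : V) : Prop :=
  ∃ e, (s e = a ∧ t e = b) ∨ (s e = b ∧ t e = a)

/-- Connectedness. -/
def Cnd {V E : Type} (s t : E → V) : Prop := ∀ a b : V, Relation.ReflTransGen (Adj s t) a b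

/-- `x` is a descendant of `v` (`par` is the parent function). -/
def Dsc {V : Type} (par : V → V) (v x : V) : Prop := ∃ k : ℕ, par^[k] x = v

/-- `e` joins `v` and its parent. -/
def PE {V E : Type} (s t : E → V) (d : V → ℕ) (par : V → V) (p : V → E) (v : V) : Prop :=
  d v = d (par v) + 1 ∧ ((s (p v) = v ∧ t (p v) = par v) ∨ (s (p v) = par v ∧ t (p v) = v))

open Classical in
/-- The number of ends of `e` equal to `v`. -/
noncomputable def inc {V E : Type} (s t : E → V) (v : V) (e : E) : ℕ :=
  (if s e = v then 1 else 0) + (if t e = v then 1 else 0)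

/-! ### The graph of a semi-meander and its dual -/

/-- Edges: pieces of the ray between consecutive crossings, and arcs (left ends). -/
abbrev Ed (N : ℕ) (a : ℤ → ℤ) : Type := Fin (N - 1) ⊕ {x : ℤ // x < a x}

/-- Faces: the outer one, and the face just below each arc. -/
abbrev Fc (a : ℤ → ℤ) : Type := Option {x : ℤ // x < a x}

/-- First end in the graph on the crossings. -/
def gS (N : ℕ) [NeZero N] (a : ℤ → ℤ) : Ed N a → Fin N
  | Sum.inl i => Fin.ofNat N i.1
  | Sum.inr x => Fin.ofNat N (cr x.1)

/-- Second end in the graph on the crossings. -/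
def gT (N : ℕ) [NeZero N] (a : ℤ → ℤ) : Ed N a → Fin N
  | Sum.inl i => Fin.ofNat N (i.1 + 1)
  | Sum.inr x => Fin.ofNat N (cr (a x.1))

/-- First end in the dual graph; `enc p` is the face above the line just before the point `p`. -/
def qS (N : ℕ) (a : ℤ → ℤ) (enc : ℤ → Fc a) : Ed N a → Fc a
  | Sum.inl i => enc ((i.1 : ℤ) + 1)
  | Sum.inr x => some x

/-- Second end in the dual graph. -/
def qT (N : ℕ) (a : ℤ → ℤ) (enc : ℤ → Fc a) : Ed N a → Fc a
  | Sum.inl i => enc (-1 - (i.1 : ℤ))
  | Sum.inr x => enc x.1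

/-- The properties of the function `enc`. -/
structure EncP (l h : ℤ) (a : ℤ → ℤ) (enc : ℤ → Fc a) : Prop where
  low : ∀ p, p ≤ l → enc p = none
  high : ∀ p, h ≤ p → enc p = none
  left : ∀ x : {x : ℤ // x < a x}, enc (x.1 + 1) = some x
  right : ∀ x : {x : ℤ // x < a x}, enc (a x.1) = some x
  right' : ∀ x : {x : ℤ // x < a x}, enc (a x.1 + 1) = enc x.1
  par : ∀ x y : {x : ℤ // x < a x}, enc x.1 = some y → y.1 < x.1

/-! ### Cuts and completions -/

/-- The number of cut pieces of the ray. -/
noncomputable def red (N : ℕ) (A : Finset ℕ) : ℕ :=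
  {i : ℕ | i + 1 < N ∧ ¬ (i ∈ A ↔ i + 1 ∈ A)}.ncard

/-- The cut arcs, as pairs (side in `A`, side not in `A`). -/
def cuts (a : ℤ → ℤ) (A : Finset ℕ) : Set (ℤ × ℤ) :=
  {q | q.2 = a q.1 ∧ cr q.1 ∈ A ∧ cr q.2 ∉ A}

/-- `b`, with `N'` crossings, contains the part of `a` with crossings in `A`, placed by `io`. -/
structure Cpl (a : ℤ → ℤ) (A : Finset ℕ) (N' : ℕ) (b : ℤ → ℤ) (io : ℕ → ℕ) : Prop where
  sz : SZ N' b
  lt : ∀ x ∈ A, io x < N'
  mono : ∀ x ∈ A, ∀ y ∈ A, x < y → io x < io y
  adj : ∀ x ∈ A, x + 1 ∈ A → io (x + 1) = io x + 1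
  arcs : ∀ z, cr z ∈ A → cr (a z) ∈ A → b (lft io z) = lft io (a z)

/-! ### Surgery -/

/-- Connections at the crossings `i, i+1, i+2` (upper sides `i, i+1, i+2`, lower sides
`-1-i, -2-i, -3-i`): `U2 U3`, `D1 D2`, `U1 D3`. -/
def r5 (i : ℤ) (z : ℤ) : ℤ :=
  if z = i + 1 then i + 2 else if z = i + 2 then i + 1
  else if z = -1 - i then -2 - i else if z = -2 - i then -1 - i
  else if z = i then -3 - i else if z = -3 - i then i else -1 - z

/-- `U1 U2`, `D2 D3`, `U3 D1`. -/
def r4 (i : ℤ) (z : ℤ) : ℤ :=
  if z = i then i + 1 else if z = i + 1 then i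
  else if z = -2 - i then -3 - i else if z = -3 - i then -2 - i
  else if z = i + 2 then -1 - i else if z = -1 - i then i + 2 else -1 - z

/-- Renumbering of the sides after the removal of two points `p, p + 1`. -/
def up (p z : ℤ) : ℤ := if z < p then z else z + 2

/-- Inverse renumbering. -/
def dn (p z : ℤ) : ℤ := if z < p then z else z - 2

/-- Contraction of the adjacent points `p, p + 1`. -/
def ctr (p : ℤ) (a : ℤ → ℤ) (z : ℤ) : ℤ :=
  dn p (if a (up p z) = p then a (p + 1) else if a (up p z) = p + 1 then a p else a (up p z))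

/-- Renumbering of the sides when the crossings `i, i+1, i+2` are replaced by one crossing. -/
def psi (i : ℕ) (z : ℤ) : ℤ :=
  if (i : ℤ) + 3 ≤ z then z - 2 else if z ≤ -4 - (i : ℤ) then z + 2 else z

end Pool.Agent.Helper50.MB
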