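import Mathlib
import Pool.Agent.Helper50.MB.Defs

/-!
# Project MB (MP_fda85d): `M_n ≥ R ^ (2 n) exp (- C √n log n)`, statements and proofs

Plan.  (1) Every set `A` of crossings of a (semi-)meander can be completed to a (semi-)meander on
`A` and at most `2` new crossings per gap of `A` (surgery `SURG`, completion `COMP`).  (2) The graph
of a semi-meander (crossings, pieces of the ray, arcs) has a balanced edge separator of size
`O(√N)` (`SEP`, `CUT`).  (3) Coding: `cT N ≤ exp (C √N log N) cT N₁ cT N₂` (`REC`).  (4) Analysis.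
-/

namespace Pool.Agent.Helper50.MB

open Filter Topology
open Pool.Agent.Helper33.Meander

/-- (BFS) Breadth first search in a connected multigraph: distances `d` from `r`, parents, parent
edges.

Proof.  Let `R k v` mean: `v` is reached from `r` by a chain of exactly `k` steps of `Adj s t`
(define it by recursion on `k`).  Every `v` is reached for some `k` (connectedness, induction on
`ReflTransGen`).  Put `d v = ` the least `k` with `R k v` (`Nat.find`).  Then `d r = 0`.  For an edge
`e`, `R k (s e) → R (k + 1) (t e)` and conversely, so the two inequalities hold.  For `v ≠ r`,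
`d v ≥ 1` (a chain of length `0` ends in `r`), the last step of a shortest chain comes from some `w`
with `R (d v - 1) w`, so `d w ≤ d v - 1`, and `d v ≤ d w + 1` by the edge inequality, so
`d v = d w + 1`; choose `par v = w`, `p v = ` an edge joining them (`Classical.choice`; for `v = r`
put `par r = r`, `p r` arbitrary).  If `p v = p w` with `v ≠ w` both `≠ r`: the two ends of this edge
are `v, par v` and also `w, par w`, so `v = par w` and `w = par v`, and
`d v = d w + 1 = d v + 2`, impossible. -/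
def BFS : Prop := ∀ (V E : Type) [Nonempty E] (s t : E → V) (r : V), Cnd s t →
  ∃ (d : V → ℕ) (par : V → V) (p : V → E), d r = 0 ∧ par r = r ∧
    (∀ e, d (s e) ≤ d (t e) + 1 ∧ d (t e) ≤ d (s e) + 1) ∧
    (∀ v, v ≠ r → PE s t d par p v) ∧
    (∀ v w, v ≠ r → w ≠ r → p v = p w → v = w)

/-- (TREE) Facts on descendants in a rooted tree given by a parent function.

Proof.  (1) Strong induction on `d x`: if `x = r` take `k = 0`, otherwise use `par x`.
(2) The ends of `p w` are `w` and `par w` (in some order), so the claim is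
`Dsc par v w ↔ Dsc par v (par w)` for `w ≠ v`: a `k` for `par w` gives `k + 1` for `w`; a `k` for `w`
is not `0` because `w ≠ v`, so `k - 1` works for `par w` (`Function.iterate_succ_apply`).
(0) Claim: if `par^[k] x = v` and `v ≠ r` then `d x = d v + k` (induction on `k`, generalizing `x`;
for `k + 1` note `x ≠ r`, since `par^[k+1] r = r ≠ v`).
(3) The ends of `p v` are `v` and `par v`; `Dsc par v v` holds (`k = 0`) and `Dsc par v (par v)` fails:
it would give `d (par v) = d v + k ≥ d v = d (par v) + 1`.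
(4) By (0), `d f = d v + j = d w + k`, so `j = k` and `v = par^[j] f = w`. -/
def TREE : Prop := ∀ (V E : Type) (s t : E → V) (r : V) (d : V → ℕ) (par : V → V) (p : V → E),
  par r = r → (∀ v, v ≠ r → PE s t d par p v) →
  (∀ x, Dsc par r x) ∧
  (∀ v w, v ≠ r → w ≠ r → w ≠ v → (Dsc par v (s (p w)) ↔ Dsc par v (t (p w)))) ∧
  (∀ v, v ≠ r → ¬ (Dsc par v (s (p v)) ↔ Dsc par v (t (p v)))) ∧
  (∀ f v w, v ≠ r → w ≠ r → Dsc par v f → Dsc par w f → d v = d w → v = w)

/-- (EV) If the incidences are even for all pairs (vertex, face), then every cut of the first graph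
meets every cut of the second graph in an even number of edges.

Proof.  Sum the even numbers over `x ∈ A` and `f ∈ D` and exchange sums:
`∑_e (∑_{x ∈ A} inc gs gt x e) (∑_{f ∈ D} inc qs qt f e)` is even.  Here
`∑_{x ∈ A} inc gs gt x e = [gs e ∈ A] + [gt e ∈ A]`, which is odd iff exactly one of `gs e`, `gt e` is in
`A`; similarly for `D`.  So the summand of `e` is odd iff `e` is in the set of the claim, and a sum of
natural numbers is even iff the number of its odd terms is even (`Finset.even_sum_iff_even_card_odd`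
or `Nat` casts to `ZMod 2`). -/
def EV : Prop := ∀ (X F E : Type) [Fintype X] [Fintype F] [Fintype E] (gs gt : E → X)
  (qs qt : E → F), (∀ x f, Even (∑ e, inc gs gt x e * inc qs qt f e)) →
  ∀ (A : X → Prop) (D : F → Prop),
    Even {e | ¬ (A (gs e) ↔ A (gt e)) ∧ ¬ (D (qs e) ↔ D (qt e))}.ncard

/-- (FC) Fundamental cuts: a spanning tree of the first graph (rooted at `x0`, parents `px`, parent
edges `ex`), dual to a breadth first search tree of the second graph, such that for every `v ≠ x0`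
the cut between the descendants of `v` and the others has at most `2 (n + 1 - m) + 1` edges whose
`d`-level is in `[m, n]`.

Proof (from `BFS`, `TREE`, `EV`).  `E` is nonempty by the Euler relation.  Apply `BFS` to
`(F, E, qs, qt, f0)`: `d, par, p`.  Let `Tt = p '' {h | h ≠ f0}`, `|Tt| = |F| - 1`.  Let
`E' = {e // e ∉ Tt}`, so `|E'| = |E| - |F| + 1 = |X| - 1 ≥ 1`.
Claim 1: the graph `(X, E')` (with the restrictions of `gs, gt`) is connected.  Let `x : X` and let
`A` be the set of vertices reachable from `x` in `(X, E')`; no edge of `E'` has exactly one end in `A`.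
For `h ≠ f0` put `D = Dsc par h`.  By `EV` the number of edges having exactly one end in `A` and
exactly one dual end in `D` is even.  Such an edge is not in `E'`, so it is `p w` for some `w ≠ f0`,
and by `TREE` (2), (3) (for the tree `par`), among the edges `p w` only `p h` has exactly one dual end
in `D`.  So the set is `{p h}` or empty, according to whether `p h` has exactly one end in `A`; being
of even size, it is empty.  Hence no edge at all has exactly one end in `A`, and since `(X, E)` is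
connected and `x ∈ A`, `A` is everything.
Apply `BFS` to `(X, E')` with root `x0`: `dx, px, ex'`; let `ex x = (ex' x).1`.  `ex'` is injective on
`{x | x ≠ x0}`, which has `|X| - 1 = |E'|` elements, so every element of `E'` is `ex' v` for some
`v ≠ x0`.
Now let `v ≠ x0`, `A = Dsc px v`.  By `TREE` (2) for the tree `px`, the only edge of `E'` which can have
exactly one end in `A` is `e' = ex v`.  Let `h ≠ f0` with `p h` having exactly one end in `A`.  The
edges having exactly one end in `A` and exactly one dual end in `Dsc par h` are among `p h` and `e'`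
(an edge of `E'` must be `e'`, an edge `p w` must have `w = h`), their number is even and `p h` is one
of them, so `e'` is one: `e'` has exactly one dual end in `Dsc par h`, so `Dsc par h (qs e')` or
`Dsc par h (qt e')`.  By `TREE` (4), for every level `j` there is at most one `h` with `d h = j` and
`Dsc par h (qs e')`, and at most one with `Dsc par h (qt e')`.  The level
`max (d (qs (p h))) (d (qt (p h)))` equals `d h`.  So the set of the claim has at most one element
`e'` and at most two elements for every `j` with `m ≤ j ≤ n`. -/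
def FC : Prop := ∀ (X F E : Type) [Fintype X] [Fintype F] [Fintype E] (gs gt : E → X)
  (qs qt : E → F) (x0 : X) (_f0 : F),
  2 ≤ Fintype.card X → Cnd gs gt → Cnd qs qt →
  Fintype.card E + 2 = Fintype.card X + Fintype.card F →
  (∀ x f, Even (∑ e, inc gs gt x e * inc qs qt f e)) →
  ∃ (d : F → ℕ) (dx : X → ℕ) (px : X → X) (ex : X → E),
    (∀ e, d (qs e) ≤ d (qt e) + 1 ∧ d (qt e) ≤ d (qs e) + 1) ∧
    px x0 = x0 ∧ (∀ x, x ≠ x0 → PE gs gt dx px ex x) ∧
    (∀ x y, x ≠ x0 → y ≠ x0 → ex x = ex y → x = y) ∧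
    ∀ v, v ≠ x0 → ∀ m n : ℕ, {e | ¬ (Dsc px v (gs e) ↔ Dsc px v (gt e)) ∧
      m ≤ max (d (qs e)) (d (qt e)) ∧ max (d (qs e)) (d (qt e)) ≤ n}.ncard ≤ 2 * (n + 1 - m) + 1

/-- (TC) In a rooted tree where every vertex has at most `4` edges, a set `M` with at least `3`
elements is cut in a balanced way by some subtree.

Proof.  Write `w v = #{x ∈ M | Dsc px v x}`.  All `x` satisfy `Dsc px x0 x` (`TREE` (1)), so
`w x0 = |M|` and `|M| < 8 w x0`.  Among the finitely many `v` with `|M| < 8 w v` choose one with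
`dx v` maximal.  Call `c` a child of `v` if `c ≠ x0` and `px c = v`; then `dx c = dx v + 1`, so
`8 w c ≤ |M|`.  Every `x` with `Dsc px v x` is `v` itself or has `Dsc px c x` for a child `c` of `v`:
take the least `k` with `px^[k] x = v`; if `k ≥ 1`, `c = px^[k-1] x` has `px c = v`, and `c ≠ x0`
because otherwise `v = px x0 = x0 = c`, against the minimality of `k`.  The children `c` of `v` have
distinct edges `ex c`, all having `v` as an end, so there are at most `4` of them.  So
`8 w v ≤ 8 + 4 |M|`, i.e. `2 w v ≤ |M| + 2`.  If `v = x0`, then `w v = |M|` and `|M| ≤ 2`, a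
contradiction. -/
def TC : Prop := ∀ (X E : Type) [Finite X] [Finite E] (gs gt : E → X) (x0 : X) (dx : X → ℕ)
  (px : X → X) (ex : X → E),
  px x0 = x0 → (∀ x, x ≠ x0 → PE gs gt dx px ex x) →
  (∀ x y, x ≠ x0 → y ≠ x0 → ex x = ex y → x = y) →
  (∀ x, {e | gs e = x ∨ gt e = x}.ncard ≤ 4) → ∀ M : Set X, 3 ≤ M.ncard →
  ∃ v, v ≠ x0 ∧ M.ncard < 8 * {x | x ∈ M ∧ Dsc px v x}.ncard ∧
    2 * {x | x ∈ M ∧ Dsc px v x}.ncard ≤ M.ncard + 2

/-- (LV) Among `s` consecutive levels one is crossed by few edges.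

Proof.  `∑_{k = a}^{a + s - 1} #{e | e crosses level k} = ∑_e #{k ∈ [a, a + s) | exactly one of
lam (gs e) < k, lam (gt e) < k}`, and for every `e` the last number is at most
`|lam (gs e) - lam (gt e)| ≤ 4` (such `k` satisfy `min < k ≤ max`).  So the sum is at most
`4 |E|`, and the smallest of the `s` terms is at most `4 |E| / s`. -/
def LV : Prop := ∀ (X E : Type) [Finite E] (gs gt : E → X) (lam : X → ℕ),
  (∀ e, lam (gs e) ≤ lam (gt e) + 4 ∧ lam (gt e) ≤ lam (gs e) + 4) → ∀ a s : ℕ, 0 < s →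
  ∃ k, a ≤ k ∧ k < a + s ∧ s * {e | ¬ (lam (gs e) < k ↔ lam (gt e) < k)}.ncard ≤ 4 * Nat.card E

/-- (SEP) Balanced edge separators of size `O(√N)` for abstract dual pairs of graphs.

Proof (from `FC`, `TC`, `LV`).  Let `N = |X|`, `s = √N + 1` (`Nat.sqrt`), so `N < s ^ 2`.  Choose any
`x0 : X` and `f0 = phi x0`; apply `FC`: `d, dx, px, ex`.  Put `lam x = d (phi x)`.  For an edge `e`
both `lam (gs e)` and `lam (gt e)` differ from `d (qs e)` by at most `2`, so `LV` applies.
`|E| ≤ ∑_x #{e | gs e = x ∨ gt e = x} ≤ 4 N`, so `LV` gives in any `s` consecutive levels some `k` with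
`s e_k ≤ 16 N < 16 s ^ 2`, i.e. `e_k ≤ 16 s`, where `e_k = #{e | ¬ (lam (gs e) < k ↔ lam (gt e) < k)}`.
Let `W k = #{x | lam x < k}`: nondecreasing, `W 0 = 0`, `W k = N` for large `k`.  Let `m` be the
largest `k` with `2 W k ≤ N`; so `2 W (m + 1) > N`.  Choose `k0`: if `m + 1 < s`, `k0 = 0` (`e_0 = 0`);
otherwise `k0` in `[m + 1 - s, m + 1)` with `e_{k0} ≤ 16 s`.  Choose `k1` in `[m + 1, m + 1 + s)` with
`e_{k1} ≤ 16 s`.  So `k0 ≤ m < k1` and `k1 - k0 ≤ 2 s - 1`.  Let `P0 = {lam < k0}`, `P2 = {lam ≥ k1}`,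
`M = {k0 ≤ lam < k1}`; `2 |P0| ≤ N`, `2 |P2| ≤ N`.
If `16 |P0| ≥ N` take `A = P0`; if `16 |P2| ≥ N` take `A = P2` (the cut is counted by `e_{k0}`,
`e_{k1}`).  Otherwise `8 |M| > 7 N`, so `|M| ≥ 28`; apply `TC` (degree hypothesis) to `M`: `v`; take
`A = {x ∈ M | Dsc px v x}`.  Then `64 |A| > 8 |M| > 7 N`, so `16 |A| ≥ N`, and `2 |A| ≤ N + 2`, so
`16 |Aᶜ| ≥ 8 N - 16 ≥ N`.  An edge with exactly one end in `A` either crosses level `k0` or `k1`, or
has both ends in `M` and exactly one end in `Dsc px v`; in the last case its level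
`max (d (qs e)) (d (qt e))` is in `[k0 - 2, k1 + 1]` (the dual ends are within `2` of
`lam (gs e) ∈ [k0, k1)`), so there are at most `2 (k1 + 2 - (k0 - 2)) + 1 ≤ 2 (2 s + 3) + 1` of them.
Total `≤ 32 s + 4 s + 7 ≤ 43 s`. -/
def SEP : Prop := ∀ (X F E : Type) [Fintype X] [Fintype F] [Fintype E] (gs gt : E → X)
  (qs qt : E → F) (phi : X → F),
  32 ≤ Fintype.card X → Cnd gs gt → Cnd qs qt →
  Fintype.card E + 2 = Fintype.card X + Fintype.card F →
  (∀ x f, Even (∑ e, inc gs gt x e * inc qs qt f e)) →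
  (∀ x, {e | gs e = x ∨ gt e = x}.ncard ≤ 4) →
  (∀ d : F → ℕ, (∀ e, d (qs e) ≤ d (qt e) + 1 ∧ d (qt e) ≤ d (qs e) + 1) →
    ∀ x e, (gs e = x ∨ gt e = x) →
      d (phi x) ≤ d (qs e) + 2 ∧ d (qs e) ≤ d (phi x) + 2 ∧
      d (phi x) ≤ d (qt e) + 2 ∧ d (qt e) ≤ d (phi x) + 2) →
  ∃ A : Set X, Fintype.card X ≤ 16 * A.ncard ∧ Fintype.card X ≤ 16 * Aᶜ.ncard ∧
    {e | ¬ (gs e ∈ A ↔ gt e ∈ A)}.ncard ≤ 43 * (Nat.sqrt (Fintype.card X) + 1)

/-- (ENC) The face above the line just before the point `p`: the innermost arc over it.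

Proof.  Let `S p = {y : ℤ | y < p ∧ p ≤ a y}`.  Its elements satisfy `y < a y`, so `y ≥ l` (by `out`)
and `y < p`: `S p` is bounded; if nonempty let `enc p = some y` with `y` its largest element,
otherwise `none`.  `low`: for `p ≤ l`, `y < p` gives `a y = y < p`.  `high`: for `h ≤ p ≤ a y`, `a y` is
outside `[l, h)`, so `a (a y) = a y`, i.e. `y = a y ≥ p`, impossible.  `left`: `x ∈ S (x + 1)` and all
elements are `≤ x`.  `right`: `x ∈ S (a x)`; if `y ∈ S (a x)` and `y > x`, then `x < y < a x` and `nc`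
gives `a y < a x`, contradiction.  `right'`: `S (a x + 1) = S x`: if `y < x ≤ a y`, then `a y ≠ x`
(otherwise `a x = y < x`), so `y < x < a y` and `nc` gives `a x < a y`; conversely if `y < a x + 1 ≤ a y`
then `y ≠ a x` (`a (a x) = x`), `y ≠ x`, and `x < y < a x` is impossible by `nc`, so `y < x ≤ a y`.
`par`: elements of `S x` are `< x`. -/
def ENC : Prop := ∀ (l h : ℤ) (a : ℤ → ℤ), NCI l h a → ∃ enc : ℤ → Fc a, EncP l h a enc

/-- (GE) Evenness for the graph of a semi-meander and its dual.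

Proof.  Write `I z = [enc z = f] + [enc (z + 1) = f]`.  For a point `z ∈ [-N, N)` let `x` be the left
end of its arc (`x = z` if `z < a z`, `x = a z` otherwise).  By `left`, `right`, `right'`:
`{some x, enc x} = {enc z, enc (z + 1)}` (if `z = x`: `enc (z + 1) = some x`; if `z = a x`: `enc z = some x`
and `enc (z + 1) = enc x`), so `inc (qS) (qT) f (inr x) = I z`.  The arcs contribute
`∑_x inc gS gT i (inr x) * inc qS qT f (inr x) = ∑ over the sides z of the crossing i of I z
= I i + I (-1 - i)` (each point `z` of `[-N, N)` is exactly one end of exactly one arc, and `cr z = i`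
iff `z = i` or `z = -1 - i`).  The piece of the ray `inl j` (`j < N - 1`) is incident to `i` iff `j = i`
or `j + 1 = i`, once (`j = i` is possible iff `i + 1 < N`, `j + 1 = i` iff `i ≥ 1`), with
`inc qS qT f (inl j) = [enc (j + 1) = f] + [enc (-1 - j) = f]`.  So the pieces contribute
`([enc (i + 1) = f] + [enc (-1 - i) = f]) + ([enc i = f] + [enc (-i) = f])`, where for `i = N - 1` the
first bracket is missing, but then it would be `[enc N = f] + [enc (-N) = f]`, two equal terms by
`low`, `high`, and for `i = 0` the second one is missing, but it would be twice `[enc 0 = f]`.  Modulo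
`2` the total is `I i + I (-1 - i) + I i + I (-1 - i) = 0`. -/
def GE : Prop := ∀ (N : ℕ) [NeZero N] (a : ℤ → ℤ) [Fintype (Ed N a)] (enc : ℤ → Fc a),
  NCI (-(N : ℤ)) N a → EncP (-(N : ℤ)) N a enc → ∀ (i : Fin N) (f : Fc a),
    Even (∑ e, inc (gS N a) (gT N a) i e * inc (qS N a enc) (qT N a enc) f e)

/-- (GLH) The other hypotheses of `SEP` for the graph of a semi-meander.

Proof.  Left ends `x < a x` lie in `[-N, N)` (outside `a z = z`), so the types are finite.  `a` maps
left ends bijectively to right ends, and the `2 N` points of `[-N, N)` are left or right ends, so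
there are `N` left ends (`a` maps `[-N, N)` to itself, because if `a z` is outside then
`z = a (a z) = a z`).  So `|Ed| = (N - 1) + N`, `|Fc| = N + 1`.  First graph: consecutive crossings are
joined by pieces of the ray, so everything is connected to `0` (values of `Fin.ofNat N k` for
`k < N`).  Dual graph: the face `some x` is joined to `enc x` (edge `inr x`), which is `none` or
`some y` with `y < x` (`par`), so by induction (`x ≥ -N`) every face is joined to `none`.  Degree: an
edge `inl j` at `x` has `j = x` or `j + 1 = x`: at most two; an edge `inr y` at `x` is the arc of the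
side `x` or of the side `-1 - x`: at most two.  Last part, with `phi x = enc x`, `x = i` as an
integer: the possible edges at `i` are `inl (i - 1)` with dual ends `enc i`, `enc (-i)`; `inl i` with
dual ends `enc (i + 1)`, `enc (-1 - i)`; the arc of the side `i`, with dual ends `enc i, enc (i + 1)`
(see `GE`); the arc of the side `-1 - i`, with dual ends `enc (-1 - i), enc (-i)`.  The distances (in
`d`) from `enc i` are: `enc (i + 1)`: `1` (arc of `i`); `enc (-i)`: `1` if `i ≥ 1` (edge `inl (i - 1)`),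
`0` if `i = 0`; `enc (-1 - i)`: one more than `enc (-i)` (arc of `-1 - i`), so `≤ 2`. -/
def GLH : Prop := ∀ (N : ℕ) [NeZero N] (a : ℤ → ℤ) (enc : ℤ → Fc a),
  NCI (-(N : ℤ)) N a → EncP (-(N : ℤ)) N a enc →
  Finite (Fc a) ∧ Finite (Ed N a) ∧ Nat.card (Ed N a) + 2 = N + Nat.card (Fc a) ∧
  Cnd (gS N a) (gT N a) ∧ Cnd (qS N a enc) (qT N a enc) ∧
  (∀ x, {e | gS N a e = x ∨ gT N a e = x}.ncard ≤ 4) ∧
  (∀ d : Fc a → ℕ, (∀ e, d (qS N a enc e) ≤ d (qT N a enc e) + 1 ∧
      d (qT N a enc e) ≤ d (qS N a enc e) + 1) →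
    ∀ (x : Fin N) e, (gS N a e = x ∨ gT N a e = x) →
      d (enc (x.1 : ℤ)) ≤ d (qS N a enc e) + 2 ∧ d (qS N a enc e) ≤ d (enc (x.1 : ℤ)) + 2 ∧
      d (enc (x.1 : ℤ)) ≤ d (qT N a enc e) + 2 ∧ d (qT N a enc e) ≤ d (enc (x.1 : ℤ)) + 2)

/-- (CUT) Balanced cuts of semi-meanders.

Proof (from `SEP`, `ENC`, `GE`, `GLH`).  Take `enc` from `ENC`, apply `SEP` with `X = Fin N`,
`F = Fc a`, `E = Ed N a`, `phi x = enc x`: a set `A'` of `Fin N`; let `A` be its image in `ℕ`.
`red N A` is the number of edges `inl i` with exactly one end in `A'`.  The map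
`(z, a z) ↦ inr (min z (a z))` is an injection from `cuts a A` to the edges `inr x` with exactly one
end in `A'`: the pair is `(x, a x)` or `(a x, x)`, and exactly one of the two is in `cuts a A`. -/
def CUT : Prop := ∀ (N : ℕ) (a : ℤ → ℤ), 32 ≤ N → NCI (-(N : ℤ)) N a →
  ∃ A : Finset ℕ, A ⊆ Finset.range N ∧ N ≤ 16 * A.card ∧ N ≤ 16 * (Finset.range N \ A).card ∧
    red N A + (cuts a A).ncard ≤ 43 * (Nat.sqrt N + 1)

/-- (PAR) The two ends of an arc have different parities.

Proof.  `a` maps `[l, h)` to itself.  It is enough to treat `x < a x`.  By `nc` (used for `x, y`, and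
for `a y, x` after excluding `a y < x`: if `a y < x < y = a (a y)` then `nc` gives `a x < y`), `a`
restricted to the integers strictly between `x` and `a x` is an involution without fixed points, so
the number `a x - x - 1` of these integers is even (`Finset.card_involution`-type lemma, e.g.
`Function.Involutive.card_fixedPoints`, `Finset.even_card_of_involution`, or pair `y < a y` with
`a y`). -/
def PAR : Prop := ∀ (l h : ℤ) (a : ℤ → ℤ), NCI l h a → ∀ z, l ≤ z → z < h → (a z - z) % 2 = 1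

/-- (TRI) Replacing three steps of one involution.

Proof.  Let `S = {e1, e2, e3, r e1, r e2, r e3}`, `o_j = r e_j`.  Let `~` be the equivalence relation
generated by the steps `a` everywhere and the steps `r` outside `S` (`r` maps the complement of `S`
to itself).  For a class `K` of `~`: `a` maps `K` to `K` and changes `ε`, so `K` has as many elements
with `ε = true` as with `ε = false`; `r` maps `K \ S` to itself and changes `ε`, so the same holds for
`K \ S`, hence for `K ∩ S`: `#{j | e_j ∈ K} = #{j | o_j ∈ K}`.  Every class meets `S`: otherwise it is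
closed under `a` and `r`, hence everything.  It is enough to show that all six elements of `S` become
equivalent after adding the pairs of `r'`, or after adding the pairs of `r''` (steps of `~` are steps
of `a` and `r'`, resp. `r''`).  A class `K` with `e_j ∈ K`, `o_j ∈ K` and no other element of `S` is
closed under `a` and `r`, hence everything, a contradiction.
Case A: `e1, e2, e3` in three different classes.  Then the class of `e_j` contains exactly one
`o_(π j)`, `π` is a bijection without fixed point, so either `e1 ~ o2, e2 ~ o3, e3 ~ o1`, and `r''`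
(pairs `e1 o3`, `e2 o1`, `e3 o2`) joins everything, or `e1 ~ o3, e2 ~ o1, e3 ~ o2`, and `r'`
(pairs `e1 o2`, `e2 o3`, `e3 o1`) joins everything.
Case B: exactly two of them equivalent, say the third is `e_k`; its class contains exactly one `o_j`,
`j ≠ k`; exactly one of `r', r''` pairs `e_k` with `o_j`; the other one pairs `e_k` with an element of
the other class, and joins everything.
Case C: `e1 ~ e2 ~ e3`: then all `o_j` are in the same class and there is nothing to do. -/
def TRI : Prop := ∀ (Y : Type) [Finite Y] (a r r' r'' : Y → Y) (ε : Y → Bool) (e1 e2 e3 : Y),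
  (∀ y, a (a y) = y) → (∀ y, r (r y) = y) → (∀ y, ε (a y) = !ε y) → (∀ y, ε (r y) = !ε y) →
  ε e1 = true → ε e2 = true → ε e3 = true → e1 ≠ e2 → e1 ≠ e3 → e2 ≠ e3 →
  (∀ x y, Relation.ReflTransGen (fun s t => t = a s ∨ t = r s) x y) →
  (∀ y, y ≠ e1 → y ≠ e2 → y ≠ e3 → y ≠ r e1 → y ≠ r e2 → y ≠ r e3 → r' y = r y) →
  r' e1 = r e2 → r' (r e2) = e1 → r' e2 = r e3 → r' (r e3) = e2 → r' e3 = r e1 →
  r' (r e1) = e3 →
  (∀ y, y ≠ e1 → y ≠ e2 → y ≠ e3 → y ≠ r e1 → y ≠ r e2 → y ≠ r e3 → r'' y = r y) →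
  r'' e1 = r e3 → r'' (r e3) = e1 → r'' e2 = r e1 → r'' (r e1) = e2 → r'' e3 = r e2 →
  r'' (r e2) = e3 →
  (∀ x y, Relation.ReflTransGen (fun s t => t = a s ∨ t = r' s) x y) ∨
  (∀ x y, Relation.ReflTransGen (fun s t => t = a s ∨ t = r'' s) x y)

/-- (TRZ) At three consecutive crossings of a semi-meander one of the two patterns keeps it
connected.

Proof (from `TRI`, `PAR`).  `Y = {z : ℤ // -N ≤ z ∧ z < N}`, `a`, `r z = -1 - z` restricted (`a` maps
`[-N, N)` to itself), `ε z = true` iff `z + i` is even, `e1 = i`, `e2 = -2 - i`, `e3 = i + 2`, so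
`r e1 = -1 - i`, `r e2 = i + 1`, `r e3 = -3 - i`.  `r' = r4 i` (`i ↔ i+1`, `-2-i ↔ -3-i`, `i+2 ↔ -1-i`)
and `r'' = r5 i` (`i ↔ -3-i`, `-2-i ↔ -1-i`, `i+2 ↔ i+1`). -/
def TRZ : Prop := ∀ (N i : ℕ) (a : ℤ → ℤ), SZ N a → i + 3 ≤ N →
  CI (-(N : ℤ)) N a (r5 i) ∨ CI (-(N : ℤ)) N a (r4 i)

/-- (CTR) Contraction of two adjacent points which are not partners.

Proof.  Let `a* y = a (p+1)` if `a y = p`, `a p` if `a y = p + 1`, `a y` otherwise, for
`y ∉ {p, p+1}`.  It takes values outside `{p, p+1}` (as `a p ≠ p + 1`), and it is an involution without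
fixed point in `[l, h) \ {p, p+1}`: if `a y = p` then `a* y = a (p+1)`, and `a (a (p+1)) = p + 1`, so
`a* (a* y) = a p = y`.  `up p` is an increasing bijection from `ℤ` to `ℤ \ {p, p+1}` with inverse
`dn p`, and `ctr p a = dn p ∘ a* ∘ up p`.  Outside `[l, h - 2)`: `z < l` gives `up p z = z`, fixed;
`z ≥ h - 2 ≥ p` gives `up p z = z + 2 ≥ h`, fixed.  `nc`: first prove the symmetric form for `a`: for
`y ∉ {x, a x}`, the points `y` and `a y` are both strictly between `x` and `a x` or both not (see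
`NCMatching.crs` in `Pool/Agent/Helper33/Meander/Bij.lean`).  A point outside `{p, p+1}` which is not an
end of the arc is on the same side of an arc `{y, a y}` as `p` and `p + 1` are on one side together
(the ends of the arc not being `p, p+1`).  The arcs of `a*` are arcs of `a` and the arc
`{a p, a (p+1)}`; an arc `{y, a y}` of `a` with no end in `{p, p+1}` separates `a p` from `a (p+1)` iff
it separates `p` from `p + 1`, which is impossible.  In Lean: for the points `x, y` in question collect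
the symmetric `nc` facts for the pairs among `x, y, p, p+1` and use `omega`. -/
def CTR : Prop := ∀ (l h p : ℤ) (a : ℤ → ℤ), NCI l h a → l ≤ p → p + 1 < h → a p ≠ p + 1 →
  NCI l (h - 2) (ctr p a) ∧
  ∀ z, z ≠ p → z ≠ p + 1 → a z ≠ p → a z ≠ p + 1 → ctr p a (dn p z) = dn p (a z)

/-- (CON) Contraction of two adjacent points joined by `r` keeps connectedness.

Proof.  Let `θ y = dn p y` for `y ∉ {p, p+1}` and `θ p = θ (p+1) = dn p (a p)`.  For every step
`s → t` of `a` or `r` inside `[l, h)`, `θ s` and `θ t` are joined by steps of the new maps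
`a' = ctr p a`, `r' = dn p ∘ r ∘ up p`: if `s, t ∉ {p, p+1}` then `a' (dn p s) = dn p t` resp.
`r' (dn p s) = dn p t` (`up p (dn p s) = s`).  If `t = r s` and one of `s, t` is in `{p, p+1}`, then both
are (`r p = p+1`, `r (p+1) = p`) and `θ s = θ t`.  If `t = a s`, `s = p`: `θ t = dn p (a p) = θ s`.  If
`s = p + 1`: `θ t = dn p (a (p+1))` and `a' (dn p (a p)) = dn p (a (p+1))` (since `a (a p) = p`), so
`θ s → θ t` is a step of `a'`; if `s = a (p+1)`, `t = p + 1`: `a' (dn p (a (p+1))) = dn p (a p)`.  Note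
`a p, a (p+1) ∉ {p, p+1}`.  Now for `x, y ∈ [l, h - 2)` the path from `up p x` to `up p y` is mapped to
a path from `x` to `y` (`dn p (up p x) = x`); the path stays in `[l, h)` because `a` and `r` preserve
`[l, h)`. -/
def CON : Prop := ∀ (l h p : ℤ) (a r : ℤ → ℤ), NCI l h a → l ≤ p → p + 1 < h → a p ≠ p + 1 →
  r p = p + 1 → (∀ z, r (r z) = z) → (∀ z, l ≤ z → z < h → l ≤ r z ∧ r z < h) → CI l h a r →
  CI l (h - 2) (ctr p a) (fun z => dn p (r (up p z)))

/-- (SURG) Three consecutive crossings of a semi-meander can be replaced by one.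

Proof (from `TRZ`, `CTR`, `CON`).  If `CI (-N) N a (r5 i)`: contract at `p = i + 1` (`r5 i p = p + 1`;
`a p ≠ p + 1`, otherwise `{p, p + 1}` is closed under `a` and `r5 i`, but `[-N, N)` has at least six
points): `a1 = ctr p a` on `[-N, N - 2)`, with `r1 = dn p ∘ r5 i ∘ up p`; contract at `q = -2 - i`
(`r1 q = q + 1` because `r5 i (-2-i) = -1-i`; `a1 q ≠ q + 1` for the same reason): `a2 = ctr q a1` on
`[-N, N - 4)` with `r2 = dn q ∘ r1 ∘ up q`; `b z = a2 (z - 2) + 2` on `[-N + 2, N - 2)`.  One checks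
`r2 (z - 2) + 2 = -1 - z` on this interval (`z ≤ -i - 1`: the point `z` comes from `z - 2`;
`-i ≤ z ≤ i`: from `z`; `z ≥ i + 1`: from `z + 2`; `omega` after unfolding), so `b` is connected with
`-1 - z`.  The relation: by `CTR` twice, `b (dn q (dn p z) + 2) = dn q (dn p (a z)) + 2` if `z` and
`a z` are not sides of the crossings `i, i+1, i+2`, and `dn q (dn p z) + 2 = psi i z` for such `z`.
If `CI (-N) N a (r4 i)`: the same with `p = i`, `q = -3 - i` (`r4 i (i) = i + 1`,
`r4 i (-3-i) = -2-i`); now `z ≤ -i - 2` comes from `z - 2`, `-1 - i ≤ z ≤ i - 1` from `z`, `z ≥ i` from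
`z + 2`, and again `dn q (dn p z) + 2 = psi i z`.
`HF`: `a` preserves the sign of points (`0 ≤ z` or not), `dn`, `up` and the shift by `2` match
nonnegative points with nonnegative points (`p ≥ 0 > q`), and the joined partners `a p, a (p+1)` have
the sign of `p` and `p + 1`; similarly for `q, q + 1`. -/
def SURG : Prop := ∀ (N i : ℕ) (a : ℤ → ℤ), SZ N a → i + 3 ≤ N →
  ∃ b, SZ (N - 2) b ∧ (HF a → HF b) ∧
    ∀ z, (cr z < i ∨ i + 3 ≤ cr z) → (cr (a z) < i ∨ i + 3 ≤ cr (a z)) →
      b (psi i z) = psi i (a z)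

/-- (COMP) Completion of a part of a semi-meander by at most two crossings per gap.

Proof (from `SURG`).  Consider all `(N', b, io)` with `Cpl a A N' b io` and (`h = true → HF b`);
`(N, a, id)` is one.  Choose one with `N'` minimal.  Claim: for `j + 2 < N'` one of `j, j+1, j+2` is in
`io '' A`.  Otherwise apply `SURG` to `b` at `j`: `b'` with `N' - 2` crossings, and let
`io' x = io x` if `io x < j`, `io x - 2` otherwise (then `io x ≥ j + 3`).  All properties are preserved:
`lt`, `mono`, `adj` clear (if `x, x+1 ∈ A` then `io x, io x + 1` are both `< j` or both `≥ j + 3`);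
`arcs`: `lft io' z = psi j (lft io z)` for `cr z ∈ A`, and `cr (lft io z) = io (cr z)`, so
`b' (lft io' z) = b' (psi j (lft io z)) = psi j (b (lft io z)) = psi j (lft io (a z)) = lft io' (a z)`.
This contradicts minimality (`A` nonempty is not even needed here; it is needed for nothing else than
`N' ≥ 1`).  Counting: `|A| ≤ N'` since `io` is injective on `A` with values `< N'`.  Let
`j < N'`, `j ∉ io '' A`.  If no element of `io '' A` is `< j`, then `j ≤ 1` (otherwise `0, 1, 2`
contradicts the claim): at most `2` such `j`.  Otherwise let `io x` be the largest element of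
`io '' A` below `j`; then `j ≤ io x + 2` (otherwise `io x + 1, io x + 2, io x + 3 ≤ j` are not in the
image), and `x + 1 ∉ A` (otherwise `io x + 1 = io (x + 1)` is in the image, it is not `j`, so it is
`< j`, contradicting the choice of `x`).  So there are at most `2 #{x ∈ A | x + 1 ∉ A}` such `j`, and
`#{x ∈ A | x + 1 ∉ A} ≤ red N A + 1` (`x + 1 < N` or `x = N - 1`). -/
def COMP : Prop := ∀ (h : Bool) (N : ℕ) (a : ℤ → ℤ) (A : Finset ℕ), SZ N a → (h = true → HF a) →
  A ⊆ Finset.range N → ∃ (N' : ℕ) (b : ℤ → ℤ) (io : ℕ → ℕ), Cpl a A N' b io ∧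
    (h = true → HF b) ∧ A.card ≤ N' ∧ N' ≤ A.card + 2 * red N A + 4

/-- (DEC) Decoding.

Proof.  Write `B = Finset.range N \ A`.  Two functions which are strictly increasing on the finite set
`A` and have the same image agree on `A`; so `io1 = io1'` on `A` and `io2 = io2'` on `B`.  `lft io` is
injective on the `z` with `cr z ∈ A` if `io` is injective on `A` (the sign of `z` is the sign of
`lft io z`).  Outside `[-N, N)` both `a` and `a'` are the identity.  Let `z ∈ [-N, N)`; then
`cr z < N`, and `a z, a' z ∈ [-N, N)` too.  Case `cr z ∈ A`, `cr (a z) ∉ A`: `(z, a z) ∈ cuts a A =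
cuts a' A`, so `a z = a' z`.  Case `cr z ∈ A`, `cr (a z) ∈ A`: then `cr (a' z) ∈ A` (otherwise the
previous case with the roles exchanged gives `a z = a' z`), and
`lft io1 (a z) = b1 (lft io1 z) = b1 (lft io1' z) = lft io1' (a' z) = lft io1 (a' z)`, so
`a z = a' z`.  Case `cr z ∈ B`, `cr (a z) ∈ A`: with `w = a z`, `(w, z) ∈ cuts a A = cuts a' A`, so
`a' w = z`, `a' z = w`.  Case `cr z ∈ B`, `cr (a z) ∈ B`: as before `cr (a' z) ∈ B`, and use
`b2, io2`. -/
def DEC : Prop := ∀ (N N1 N2 : ℕ) (A : Finset ℕ) (a a' b1 b2 : ℤ → ℤ)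
  (io1 io1' io2 io2' : ℕ → ℕ), A ⊆ Finset.range N → SZ N a → SZ N a' →
  Cpl a A N1 b1 io1 → Cpl a' A N1 b1 io1' →
  Cpl a (Finset.range N \ A) N2 b2 io2 → Cpl a' (Finset.range N \ A) N2 b2 io2' →
  A.image io1 = A.image io1' →
  (Finset.range N \ A).image io2 = (Finset.range N \ A).image io2' →
  cuts a A = cuts a' A → a = a'

/-- (SUBS) The number of subsets with at most `k` elements.

Proof.  Every such subset is the set of the `some` values of a function `Fin k → Option S`:
`(S.card + 1) ^ k` functions.  (Or induction on `k` or on `S`.) -/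
def SUBS : Prop := ∀ (α : Type) (S : Finset α) (k : ℕ),
  {s : Finset α | s ⊆ S ∧ s.card ≤ k}.ncard ≤ (S.card + 1) ^ k

/-- (FIN) Finiteness.

Proof.  `a ∈ T h N` is determined by the function `Fin (2 N) → Fin (2 N)`, `x ↦ a (x - N) + N`, which is
a `NCMatching` (`Official.lean`; `a` maps `[-N, N)` to itself); `card_NC_le` there gives
`2 ^ (2 N) ≤ 16 ^ N`. -/
def FIN : Prop := ∀ (h : Bool) (N : ℕ), Finite (T h N) ∧ cT h N ≤ 16 ^ N

/-- (COD) The number of codes.

Proof (from `DEC`, `SUBS`, `FIN`).  For every `a` in the set choose `A, b1, b2, io1, io2`.  The map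
`a ↦ (b1, b2, [0 ∈ A], Z, J1, J2, Q)`, where `Z = {i | i + 1 < N ∧ ¬ (i ∈ A ↔ i + 1 ∈ A)}`,
`J1 = range N1 \ A.image io1`, `J2 = range N2 \ (range N \ A).image io2`, `Q = cuts a A`, is injective:
`Z` and `[0 ∈ A]` determine `A` (induction on `i`), `J1, J2` determine the images (which are
contained in `range N1`, `range N2`), and `DEC` gives `a`.  Its values: `b1 ∈ T h N1`, `b2 ∈ T h N2`;
`Z ⊆ range N` has `red N A ≤ K` elements; `J1` has `N1 - A.card ≤ 2 K + 4` elements (`io1` is injective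
on `A`), similarly `J2`; `Q`, a subset of `S × S` with `S` the `2 N` integers in `[-N, N)`, has at most
`K` elements (`cr z ∈ A` implies `cr z < N`, so `z ∈ [-N, N)`, and `a z` too).  Count with `SUBS`. -/
def COD : Prop := ∀ (h : Bool) (N N1 N2 K : ℕ),
  {a : ℤ → ℤ | SZ N a ∧ (h = true → HF a) ∧ ∃ (A : Finset ℕ) (b1 b2 : ℤ → ℤ) (io1 io2 : ℕ → ℕ),
    A ⊆ Finset.range N ∧ Cpl a A N1 b1 io1 ∧ Cpl a (Finset.range N \ A) N2 b2 io2 ∧
    (h = true → HF b1 ∧ HF b2) ∧ red N A ≤ K ∧ (cuts a A).ncard ≤ K ∧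
    N1 ≤ A.card + 2 * K + 4 ∧ N2 ≤ (Finset.range N \ A).card + 2 * K + 4}.ncard ≤
  2 * (N + 1) ^ K * ((N1 + 1) ^ (2 * K + 4) * (N2 + 1) ^ (2 * K + 4)) * (4 * N ^ 2 + 1) ^ K *
    (cT h N1 * cT h N2)

/-- (RECA) The recursion, with explicit numbers.

Proof (from `CUT`, `COMP`, `COD`, `FIN`).  Let `K = 43 (√N + 1)`.  For `a ∈ T h N` take `A` from `CUT`
(so `red N A ≤ K`, `(cuts a A).ncard ≤ K`), and the completions `(N1, b1, io1)` of `A` and
`(N2, b2, io2)` of `B = range N \ A` from `COMP`; `red N B = red N A`.  So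
`A.card ≤ N1 ≤ A.card + 2 K + 4`, `B.card ≤ N2 ≤ B.card + 2 K + 4`, hence `N ≤ 16 N1`, `N ≤ 16 N2`,
`N ≤ N1 + N2 ≤ N + 4 K + 8`.  So the finite nonempty set of all `a` is the union of the sets of `COD` over
the pairs `(N1, N2)` with these properties, at most `(N + 4 K + 9) ^ 2` pairs; by the pigeonhole
principle one of these sets has at least `cT h N / (N + 4 K + 9) ^ 2` elements. -/
def RECA : Prop := ∀ (h : Bool) (N : ℕ), 32 ≤ N → 0 < cT h N → ∃ N1 N2 K : ℕ,
  K = 43 * (Nat.sqrt N + 1) ∧ N ≤ 16 * N1 ∧ N ≤ 16 * N2 ∧ N ≤ N1 + N2 ∧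
  N1 + N2 ≤ N + 4 * K + 8 ∧
  cT h N ≤ (N + 4 * K + 9) ^ 2 * (2 * (N + 1) ^ K * ((N1 + 1) ^ (2 * K + 4) *
    (N2 + 1) ^ (2 * K + 4)) * (4 * N ^ 2 + 1) ^ K * (cT h N1 * cT h N2))

/-- (REC) The recursion.

Proof (from `RECA`).  `K ≤ 43 (√N + 1) ≤ 60 √N` (real square root, `N ≥ 32`), so
`4 K + 8 ≤ 300 √N` and `N1, N2 ≤ N + 300 √N ≤ 301 N`.  Every one of the numbers
`N + 4 K + 9, 2, N + 1, N1 + 1, N2 + 1, 4 N ^ 2 + 1` is at most `400 N ^ 2 ≤ N ^ 4` or so (`N ≥ 32`;
adjust: `400 ≤ 32 ^ 2`), and the total exponent is at most `2 + 1 + K + 2 (2 K + 4) + K = 6 K + 11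
≤ 400 √N`.  So the product is at most `N ^ (4 * 400 √N) = exp (1600 √N log N)`.  Take
`C = 2000`. -/
def REC : Prop := ∃ C : ℝ, 0 < C ∧ ∀ (h : Bool) (N : ℕ), 32 ≤ N → 0 < cT h N →
  ∃ N1 N2 : ℕ, N ≤ 16 * N1 ∧ N ≤ 16 * N2 ∧ N ≤ N1 + N2 ∧
    ((N1 : ℝ) + N2 ≤ N + C * Real.sqrt N) ∧
    (cT h N : ℝ) ≤ Real.exp (C * Real.sqrt N * Real.log N) * (cT h N1 * cT h N2)

/-- (SUP) Superadditivity: put one semi-meander around the other and join the two curves.

Proof.  `m = 0` or `n = 0`: `T h 0` has one element (the identity).  Let `m, n ≥ 1`, `a1 ∈ T h m`,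
`a2 ∈ T h n`.  Let `o w = w + m` for `w ≥ 0` and `o w = w - m` for `w < 0` (a bijection from `[-n, n)` to
`[-m-n, -m) ∪ [m, m+n)`, `o (-1 - w) = -1 - o w`).  Let `a0 = a1` on `[-m, m)`, `a0 (o w) = o (a2 w)`;
this is non-crossing.  Let `x = a1 (m - 1)`, `y = o (a2 0) = a0 m`, and let `a` be `a0` except
`a (m-1) = m`, `a m = m - 1`, `a x = y`, `a y = x`.  (`x ∈ [-m, m-1)`, `y ≠ m` is an outer point.)
Non-crossing: the arc `{m-1, m}` joins adjacent points; an inner arc `{s, t}`, `s, t ≠ x, m-1`, does not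
separate `x` from `m - 1`, hence (as `m - 1` is the last inner point, all outer points are not
between `s` and `t`, and neither is `m-1`) `x` is not between `s` and `t`, and it does not separate
`x` from `y`; an outer arc `{s, t}` other than `{m, y}` does not separate `m` from `y`, and it does not
separate `m` from `x` (between `m` and `x` there are only inner points), so it does not separate
`x` from `y`.
Connected: let `K` be the set of inner points joined to `m - 1` by steps of `-1 - z` and steps of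
`a1` other than `m-1 ↔ x`.  `z ↦ -1 - z` is an involution of `K` without fixed points, so `|K|` is even;
if `x ∉ K` then `a1` is an involution of `K \ {m-1}` without fixed points and `|K|` is odd, a
contradiction.  So `x ∈ K`, hence `K` is closed under all steps and is all of `[-m, m)`.  In the same
way all outer points are joined to `m` by steps of `-1 - z` and of `a0` other than `m ↔ y`.  All these
steps are steps of `a`, and `m - 1 ↔ m` joins the two parts.
`HF a1, HF a2 → HF a`: `x ≥ 0`, `y ≥ 0` because `m - 1, m ≥ 0`.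
Injective: let `a` be the result.  `x` is the only inner point other than `m - 1` with `a x` outer,
`y = a x`; so `x, y`, and then `a1` (`= a` on inner points other than `m-1, x`) and `a2` are determined
by `a`. -/
def SUP : Prop := ∀ (h : Bool) (m n : ℕ), cT h m * cT h n ≤ cT h (m + n)

/-- (MSM) Comparison with the definition of semi-meanders.

Proof.  `a ↦ (x ↦ a (x - n) + n)` is a bijection from `T false n` to the set in the definition:
`x ∈ Fin (2 n)` corresponds to `z = x - n ∈ [-n, n)`, `Fin.rev x = 2 n - 1 - x` to `-1 - z`.  `NCMatching`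
is `inv`, `ne`, `nc`; the inverse map extends by the identity. -/
def MSM : Prop := ∀ n : ℕ, cT false n = semimeanders n

/-- (MM) Comparison with meanders.

Proof.  `a ∈ T true (2 n)` corresponds to the pair `(u, l)`, `u x = a x`, `l x = -1 - a (-1 - x)` for
`x ∈ Fin (2 n)` (upper and lower matching).  `nc` for `a` on `[0, 2 n)` is `nc` for `u`; `nc` for `a` on
`[-2n, 0)` is the mirror image of `nc` for `l` (for a non-crossing matching the mirror image of the
condition holds too: if `y < x` and `a x < y` then `a x < a y`).  Since no arc joins a nonnegative and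
a negative point there is no other condition.  Connected: a step of `u` from `x` is the step `a` at `x`;
a step of `l` from `x` is `x → -1 - x → a (-1 - x) → -1 - a (-1 - x)`; conversely map both `z` and
`-1 - z` to the crossing `cr z`.  Second part: for `N` odd `HF` implies that `a` is an involution
without fixed points of `[0, N)`, impossible. -/
def MM : Prop := (∀ n : ℕ, cT true (2 * n) = meanders n) ∧ ∀ n : ℕ, cT true (2 * n + 1) = 0

/-- (POS) Positivity.

Proof (from `SUP`, `FIN`).  `T h 0` contains the identity.  `T false 1` contains `0 ↔ -1`.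
`T true 2` contains `0 ↔ 1`, `-1 ↔ -2` (connected: `0 → 1 → -2 → -1 → 0`).  Now induct with
`SUP`. -/
def POS : Prop := (∀ n, 0 < cT false n) ∧ ∀ n, 0 < cT true (2 * n)

/-- (AN1) The function `√n log n` is superadditive with a factor for balanced partitions.

Proof.  Let `α = n1 / n ≥ 1/16`, `β = n2 / n ≥ 1/16`, `α + β ≥ 1`.  `√α + √β ≥ 6/5`: decreasing `α` or
`β` we may assume `α + β = 1`, both in `[1/16, 15/16]`, and
`(√α + √β)^2 = 1 + 2 √(α β) ≥ 1 + 2 √(15/256) ≥ 1.48 > (6/5)^2`.  Also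
`log n1, log n2 ≥ log n - log 16`.  So the right side is at least
`(6/5) √n (log n - log 16) ≥ (11/10) √n log n` as soon as `log n ≥ 12 log 16`. -/
def AN1 : Prop := ∃ n0 : ℕ, ∀ n n1 n2 : ℕ, n0 ≤ n → n ≤ 16 * n1 → n ≤ 16 * n2 → n ≤ n1 + n2 →
  (11 / 10) * (Real.sqrt n * Real.log n) ≤
    Real.sqrt n1 * Real.log n1 + Real.sqrt n2 * Real.log n2

/-- (AN2) Good scales.

Proof (from `AN1`).  Write `s n = √n log n`, `K' = 10 C`, `K = K' + 16`.  Let `x0` be large: at least
`100`, the `n0` of `AN1`, and such that `C √N < N / 16` for `N ≥ x0`.  Let `x ≥ x0` and suppose the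
claim fails: `g n > K s n ≥ n / x + K' s n` for all `n ∈ [x, 16 x]` (`n / x ≤ 16 ≤ 16 s n`).  Then
`g N ≥ N / x + K' s N` for all `N ≥ x`, by strong induction: for `N > 16 x` take `n1, n2`: they are
`≥ N / 16 > x` and `< N` (`n1 ≤ N + C √N - n2 ≤ N + C √N - N / 16 < N`), so
`g N ≥ g n1 + g n2 - C s N ≥ (n1 + n2) / x + K' (s n1 + s n2) - C s N ≥ N / x + K' (11/10) s N - C s N
= N / x + K' s N`.  So `g N / N ≥ 1 / x` for all `N ≥ x`, contradicting `g N / N → 0`. -/
def AN2 : Prop := ∀ (g : ℕ → ℝ) (C : ℝ), 0 < C → (∀ n, 0 ≤ g n) →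
  Tendsto (fun n : ℕ => g n / n) atTop (𝓝 0) →
  (∀ n : ℕ, 100 ≤ n → ∃ n1 n2 : ℕ, n ≤ 16 * n1 ∧ n ≤ 16 * n2 ∧ n ≤ n1 + n2 ∧
    ((n1 : ℝ) + n2 ≤ n + C * Real.sqrt n) ∧
    g n1 + g n2 ≤ g n + C * (Real.sqrt n * Real.log n)) →
  ∃ (K : ℝ) (x0 : ℕ), 0 < K ∧ ∀ x : ℕ, x0 ≤ x → ∃ n : ℕ, x ≤ n ∧ n ≤ 16 * x ∧
    g n ≤ K * (Real.sqrt n * Real.log n)

/-- (AN3) From good scales to all `n`.

Proof.  Write `s n = √n log n`.  Let `n1 = 64 (x0 + 1)`, `C0 = max_{k ≤ n1} g k`, `C1 = 256 K`.  Claim
`g n ≤ C1 s n + C0` for all `n`, by strong induction.  For `n > n1` let `x = n / 32` (integer part),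
`x ≥ x0`, `x ≥ n / 64`, take the good `n'`, `x ≤ n' ≤ 16 x ≤ n / 2`, `n = q n' + ρ`, `ρ < n'`,
`1 ≤ q ≤ 64`.  By subadditivity `g n ≤ q g n' + g ρ ≤ 64 K s n + C1 s ρ + C0`, and
`s ρ ≤ s n / √2 ≤ (3/4) s n` (`ρ ≤ n / 2`; `s 0 = s 1 = 0`), so
`g n ≤ (64 K + 192 K) s n + C0`.  Finally for `n ≥ 2`, `s n ≥ √2 log 2 ≥ 9/10`, so
`C0 ≤ 2 |C0| s n`. -/
def AN3 : Prop := ∀ g : ℕ → ℝ, (∀ n, 0 ≤ g n) → (∀ m n, g (m + n) ≤ g m + g n) →
  (∃ (K : ℝ) (x0 : ℕ), 0 < K ∧ ∀ x : ℕ, x0 ≤ x → ∃ n : ℕ, x ≤ n ∧ n ≤ 16 * x ∧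
    g n ≤ K * (Real.sqrt n * Real.log n)) →
  ∃ C : ℝ, 0 < C ∧ ∀ n : ℕ, 2 ≤ n → g n ≤ C * (Real.sqrt n * Real.log n)

/-- (RATE) A rate in the ratio limit lemma of `Pool/Agent/Helper33/Meander/Ratio.lean`.

Proof.  As there (`hit`), `(n + k) exp (L (n+k-1) - L (n+k)) ≤ n exp (L (n-1) - L n) + k` for `n ≥ 1`.
Write `ψ n = exp (L (n-1) - L n)`, `s n = √n log n`.  The numbers `δ = L (n+1) - L n - ℓ` are bounded:
`ψ` is bounded, since `n ψ n ≤ ψ 1 + n`, so `δ ≥ -C2`; and `δ ≤ C2` will follow from the argument (use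
`min δ 1` instead of `δ`).  Let first `δ > 0`, `δ' = min δ 1`.  For `0 ≤ k ≤ c δ' n`:
`ψ (n+1+k) ≤ ψ (n+1) + k / n ≤ e^(-ℓ) e^(-δ') + c δ' ≤ e^(-ℓ - δ'/2)` if `c` is small (in terms of
`ℓ`: `e^(-δ'/2) - e^(-δ') ≥ δ' / 10` on `[0, 1]`).  So `L (n+1+k) - L (n+k) ≥ ℓ + δ'/2`, and with
`K = ⌊c δ' n⌋`: `L (n+K) - L n ≥ K (ℓ + δ'/2)`.  But `L (n+K) ≤ (n+K) ℓ`, `L n ≥ n ℓ - C s n`, so
`K δ' / 2 ≤ C s n`, and as `K ≥ c δ' n - 1`: `δ'^2 ≤ C3 (s n / n + 1 / n)`, i.e.
`δ' ≤ C4 n^(-1/4) √(log n)` for `n ≥ 2`; for large `n` this is `< 1`, so `δ' = δ`; for the finitely many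
other `n` enlarge the constant.  Let now `δ < 0`, `η = |δ|`, bounded.  For `k ≤ n`,
`(n+1) ψ (n+1) ≤ (n+1-k) ψ (n+1-k) + k`, so `ψ (n+1-k) ≥ ψ (n+1) - k / (n+1-k)`; for
`0 ≤ k ≤ c η n` (`c` small, so `k ≤ n / 2`) this is at least `e^(-ℓ + η) - 2 c η ≥ e^(-ℓ + η/2)`.  So
`L (n+1-k) - L (n-k) ≤ ℓ - η/2`, `L (n+1) - L (n+1-K) ≤ K (ℓ - η/2)` with `K = ⌊c η n⌋`, while
`L (n+1) ≥ (n+1) ℓ - C s (n+1)`, `L (n+1-K) ≤ (n+1-K) ℓ`, so `K η / 2 ≤ C s (n+1)` and one concludes as
before. -/
def RATE : Prop := ∀ (L : ℕ → ℝ) (ℓ C : ℝ), (∀ n : ℕ, L n ≤ n * ℓ) →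
  (∀ n : ℕ, 2 ≤ n → n * ℓ - C * (Real.sqrt n * Real.log n) ≤ L n) →
  (∀ n : ℕ, 1 ≤ n → ((n : ℝ) + 1) * Real.exp (L n - L (n + 1)) ≤
      n * Real.exp (L (n - 1) - L n) + 1) →
  ∃ C' : ℝ, 0 < C' ∧ ∀ n : ℕ, 2 ≤ n →
    |L (n + 1) - L n - ℓ| ≤ C' * ((n : ℝ) ^ (-(1 / 4 : ℝ)) * Real.sqrt (Real.log n))

end Pool.Agent.Helper50.MB
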