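import Mathlib
import Pool.Agent.Helper50.MB.Goals

/-!
# Project MB: breadth first search
-/

namespace Pool.Agent.Helper50.MB

section
variable {V E : Type} (s t : E → V) (r : V)

/-- `v` is reached from `r` by exactly `k` steps. -/
def Rch : ℕ → V → Prop
  | 0, v => v = r
  | k + 1, v => ∃ w, Rch k w ∧ Adj s t w v

end

theorem own_BFS : BFS := by
  intro V E hE s t r hc
  classical
  have hex : ∀ v, ∃ k, Rch s t r k v := by
    intro v
    have h := hc r v
    induction h with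
    | refl => exact ⟨0, rfl⟩
    | tail _ hstep ih =>
      obtain ⟨k, hk⟩ := ih
      exact ⟨k + 1, _, hk, hstep⟩
  obtain ⟨d, hd⟩ : ∃ d : V → ℕ, d = fun v => Nat.find (hex v) := ⟨_, rfl⟩
  have hd1 : ∀ v, Rch s t r (d v) v := by
    intro v
    rw [hd]
    exact Nat.find_spec (hex v)
  have hd2 : ∀ v k, Rch s t r k v → d v ≤ k := by
    intro v k h
    rw [hd]
    exact Nat.find_min' (hex v) h
  have hr : d r = 0 := Nat.le_zero.1 (hd2 r 0 rfl)
  have hadj : ∀ v w, Adj s t v w → d w ≤ d v + 1 := fun v w h => hd2 w _ ⟨v, hd1 v, h⟩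
  have hsym : ∀ v w, Adj s t v w → Adj s t w v := by
    rintro v w ⟨e, he⟩
    exact ⟨e, he.symm⟩
  have hedge : ∀ e, d (s e) ≤ d (t e) + 1 ∧ d (t e) ≤ d (s e) + 1 := fun e =>
    ⟨hadj _ _ ⟨e, Or.inr ⟨rfl, rfl⟩⟩, hadj _ _ ⟨e, Or.inl ⟨rfl, rfl⟩⟩⟩
  have hpar : ∀ v, ∃ (w : V) (e : E), (v = r → w = r) ∧ (v ≠ r → d v = d w + 1 ∧
      ((s e = v ∧ t e = w) ∨ (s e = w ∧ t e = v))) := by
    intro v
    by_cases hv : v = r
    · exact ⟨r, Classical.arbitrary E, fun _ => rfl, fun h => absurd hv h⟩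
    · have h1 := hd1 v
      rcases hk : d v with _ | k
      · rw [hk] at h1
        exact absurd h1 hv
      · rw [hk] at h1
        obtain ⟨w, hw, hwv⟩ := h1
        have h2 := hd2 w k hw
        have h3 := hadj w v hwv
        obtain ⟨e, he⟩ := hwv
        refine ⟨w, e, fun h => absurd h hv, fun _ => ⟨by omega, he.symm⟩⟩
  choose par p h1 h2 using hpar
  refine ⟨d, par, p, hr, h1 r rfl, hedge, fun v hv => h2 v hv, ?_⟩
  intro v w hv hw hp
  by_contra hne
  obtain ⟨a1, a2⟩ := h2 v hv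
  obtain ⟨b1, b2⟩ := h2 w hw
  rw [hp] at a2
  rcases a2 with ⟨c1, c2⟩ | ⟨c1, c2⟩ <;> rcases b2 with ⟨e1, e2⟩ | ⟨e1, e2⟩
  · exact hne (c1.symm.trans e1)
  · have f1 : v = par w := c1.symm.trans e1
    have f2 : par v = w := c2.symm.trans e2
    rw [f2] at a1
    rw [← f1] at b1
    omega
  · have f1 : par v = w := c1.symm.trans e1
    have f2 : v = par w := c2.symm.trans e2
    rw [f1] at a1
    rw [← f2] at b1
    omega
  · exact hne (c2.symm.trans e2)

end Pool.Agent.Helper50.MB
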