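import Pool.Agent.Helper70.MB.Goals

/-!
The commutator inequality (packet MB-COMM).
-/

open MeasureTheory Set Metric
open scoped ENNReal FourierTransform Topology ContDiff
open Pool.Agent.Results.MP_91ee6f_gt Pool.Agent.Helper70.MB

namespace Pool.Agent.Helper50.MB

lemma br_sub_comm {n : ℕ} (ξ ζ : En n) : br (ξ - ζ) = br (ζ - ξ) := by
  unfold br
  rw [norm_sub_rev]

lemma rpow_half_mul {n : ℕ} (ξ : En n) (t : ℝ) : br ξ ^ (t / 2) * br ξ ^ (t / 2) = br ξ ^ t := by
  rw [← Real.rpow_add (br_pos ξ)]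
  congr 1
  ring

lemma half_bound {n : ℕ} (hs1 : ∀ ξ ζ : En n, br ζ ≤ 2 * br ξ * br (ζ - ξ)) (ξ ζ : En n) :
    br ζ ^ (sx n / 2) ≤ 2 ^ (sx n / 2) * br (ζ - ξ) ^ (sx n / 2) * br ξ ^ (sx n / 2) := by
  have hs : 0 ≤ sx n / 2 := by unfold sx; positivity
  refine (Real.rpow_le_rpow (br_pos ζ).le (hs1 ξ ζ) hs).trans (le_of_eq ?_)
  rw [Real.mul_rpow (mul_nonneg zero_le_two (br_pos ξ).le) (br_pos _).le,
    Real.mul_rpow zero_le_two (br_pos ξ).le]
  ring

lemma norm_le_br {n : ℕ} (a : En n) : ‖a‖ ≤ br a := by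
  unfold br
  have h1 : (1 : ℝ) ≤ 2 * Real.pi := by nlinarith [Real.pi_gt_three]
  have h2 : ‖a‖ ≤ 2 * Real.pi * ‖a‖ := by nlinarith [norm_nonneg a]
  nlinarith [sq_nonneg (2 * Real.pi * ‖a‖ - 1), norm_nonneg a]

/-- The commutator inequality. -/
theorem comm : YOUNG → SYMB → CUTF → PROD → MULT → COMM := by
  intro young symb cutf prod mult n hn
  obtain ⟨hs1, C, hC, hs2⟩ := symb n hn
  obtain ⟨CM, hCM, hM⟩ := mult n hn
  refine ⟨C ^ 2, by positivity, fun χ u hχ hu => ?_⟩
  set v : En n → ℝ := fun x => χ x * u x with hv_def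
  have hv : Ad v := (hM χ u hχ hu).1
  set w : En n → ℝ := fun x => χ x * v x with hw_def
  have hχi : Integrable χ := hχ.1.continuous.integrable_of_hasCompactSupport hχ.2
  obtain ⟨hint, -, -⟩ := cutf n χ hχ
  obtain ⟨-, hPu, hconj⟩ := prod n χ u hχ hu.2.1
  obtain ⟨-, hPv, -⟩ := prod n χ v hχ hv.2.1
  have cu : Continuous (hat u) := continuous_hat hu.2.1
  have cv : Continuous (hat v) := continuous_hat hv.2.1
  have cχ : Continuous (hat χ) := continuous_hat hχi
  -- the functions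
  set F : En n → ℝ := fun ζ => br ζ ^ (sx n / 2) * ‖hat v ζ‖ with hF
  set G₁ : En n → ℝ := fun a => 2 ^ (sx n / 2) * (br a ^ (sx n / 2) * ‖hat χ a‖) with hG₁
  set f₁ : En n → ℝ := fun ξ => br ξ ^ (sx n / 2) * ‖hat u ξ‖ with hf₁
  set G : En n → ℝ := fun a => ‖a‖ * br a ^ ((n : ℝ) / 2) * ‖hat χ a‖ with hG
  set f : En n → ℝ := fun ξ => br ξ ^ ((sx n - 1) / 2) * ‖hat u ξ‖ with hf
  have cF : Continuous F := (continuous_br_rpow _).mul cv.norm
  have cG₁ : Continuous G₁ := continuous_const.mul ((continuous_br_rpow _).mul cχ.norm)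
  have cf₁ : Continuous f₁ := (continuous_br_rpow _).mul cu.norm
  have cG : Continuous G := (continuous_norm.mul (continuous_br_rpow _)).mul cχ.norm
  have cf : Continuous f := (continuous_br_rpow _).mul cu.norm
  have F0 : ∀ x, 0 ≤ F x := fun x => mul_nonneg (br_rpow_pos x _).le (norm_nonneg _)
  have G₁0 : ∀ x, 0 ≤ G₁ x := fun x => mul_nonneg (Real.rpow_nonneg zero_le_two _)
    (mul_nonneg (br_rpow_pos x _).le (norm_nonneg _))
  have f₁0 : ∀ x, 0 ≤ f₁ x := fun x => mul_nonneg (br_rpow_pos x _).le (norm_nonneg _)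
  have G0 : ∀ x, 0 ≤ G x := fun x => mul_nonneg
    (mul_nonneg (norm_nonneg _) (br_rpow_pos x _).le) (norm_nonneg _)
  have f0 : ∀ x, 0 ≤ f x := fun x => mul_nonneg (br_rpow_pos x _).le (norm_nonneg _)
  have F2 : ∀ x, F x ^ 2 = br x ^ sx n * ‖hat v x‖ ^ 2 := fun x => by
    simp only [hF]
    rw [mul_pow, sq (br x ^ (sx n / 2)), rpow_half_mul]
  have f₁2 : ∀ x, f₁ x ^ 2 = br x ^ sx n * ‖hat u x‖ ^ 2 := fun x => by
    simp only [hf₁]
    rw [mul_pow, sq (br x ^ (sx n / 2)), rpow_half_mul]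
  have f2 : ∀ x, f x ^ 2 = br x ^ (sx n - 1) * ‖hat u x‖ ^ 2 := fun x => by
    simp only [hf]
    rw [mul_pow, sq (br x ^ ((sx n - 1) / 2)), rpow_half_mul]
  have iF2 : Integrable (fun x => F x ^ 2) := by
    simp only [F2]
    exact hv.2.2
  have if₁2 : Integrable (fun x => f₁ x ^ 2) := by
    simp only [f₁2]
    exact hu.2.2
  have if2 : Integrable (fun x => f x ^ 2) := by
    simp only [f2]
    exact hu.integrable_le (by linarith)
  have iG₁ : Integrable G₁ := (hint (sx n / 2)).const_mul _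
  have iG : Integrable G := by
    refine (hint ((n : ℝ) / 2 + 1)).mono' cG.aestronglyMeasurable
      (Filter.Eventually.of_forall fun a => ?_)
    rw [Real.norm_eq_abs, abs_of_nonneg (G0 a)]
    refine mul_le_mul_of_nonneg_right ?_ (norm_nonneg _)
    rw [Real.rpow_add (br_pos a), Real.rpow_one, mul_comm]
    exact mul_le_mul_of_nonneg_left (norm_le_br a) (br_rpow_pos a _).le
  obtain ⟨⟨iP₁, -⟩, -⟩ := young n F G₁ f₁ F0 G₁0 f₁0 cF.measurable cG₁.measurable cf₁.measurable
    iF2 iG₁ if₁2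
  obtain ⟨⟨iP, hP⟩, -⟩ := young n F G f F0 G0 f0 cF.measurable cG.measurable cf.measurable
    iF2 iG if2
  -- the integrand
  set H : En n × En n → ℂ := fun p =>
    (starRingEnd ℂ) (hat v p.1) * (hat χ (p.1 - p.2) * hat u p.2) with hH
  have cH : Continuous H :=
    (Complex.continuous_conj.comp (cv.comp continuous_fst)).mul
      ((cχ.comp (continuous_fst.sub continuous_snd)).mul (cu.comp continuous_snd))
  have nH : ∀ p, ‖H p‖ = ‖hat v p.1‖ * (‖hat χ (p.1 - p.2)‖ * ‖hat u p.2‖) := fun p => by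
    simp only [hH]
    rw [norm_mul, norm_mul, Complex.norm_conj]
  -- bounds
  have b1 : ∀ p : En n × En n, br p.1 ^ sx n * ‖H p‖ ≤ F p.1 * (G₁ (p.1 - p.2) * f₁ p.2) := by
    intro p
    have h := half_bound hs1 p.2 p.1
    rw [nH]
    simp only [hF, hG₁, hf₁]
    rw [← rpow_half_mul]
    have h0 : 0 ≤ br p.1 ^ (sx n / 2) * (‖hat v p.1‖ * (‖hat χ (p.1 - p.2)‖ * ‖hat u p.2‖)) :=
      mul_nonneg (br_rpow_pos _ _).le (by positivity)
    have := mul_le_mul_of_nonneg_right h h0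
    calc _ = br p.1 ^ (sx n / 2) * (br p.1 ^ (sx n / 2) *
          (‖hat v p.1‖ * (‖hat χ (p.1 - p.2)‖ * ‖hat u p.2‖))) := by ring
      _ ≤ _ := this
      _ = _ := by ring
  have b2 : ∀ p : En n × En n, br p.2 ^ sx n * ‖H p‖ ≤ F p.1 * (G₁ (p.1 - p.2) * f₁ p.2) := by
    intro p
    have h := half_bound hs1 p.1 p.2
    rw [br_sub_comm] at h
    rw [nH]
    simp only [hF, hG₁, hf₁]
    rw [← rpow_half_mul]
    have h0 : 0 ≤ br p.2 ^ (sx n / 2) * (‖hat v p.1‖ * (‖hat χ (p.1 - p.2)‖ * ‖hat u p.2‖)) :=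
      mul_nonneg (br_rpow_pos _ _).le (by positivity)
    have := mul_le_mul_of_nonneg_right h h0
    calc _ = br p.2 ^ (sx n / 2) * (br p.2 ^ (sx n / 2) *
          (‖hat v p.1‖ * (‖hat χ (p.1 - p.2)‖ * ‖hat u p.2‖))) := by ring
      _ ≤ _ := this
      _ = _ := by ring
  have b3 : ∀ p : En n × En n, |br p.1 ^ sx n - br p.2 ^ sx n| * ‖H p‖ ≤
      C * (F p.1 * (G (p.1 - p.2) * f p.2)) := by
    intro p
    rw [nH]
    simp only [hF, hG, hf]
    have h0 : 0 ≤ ‖hat v p.1‖ * (‖hat χ (p.1 - p.2)‖ * ‖hat u p.2‖) := by positivity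
    have := mul_le_mul_of_nonneg_right (hs2 p.2 p.1) h0
    calc _ ≤ _ := this
      _ = _ := by ring
  -- integrability on the product
  have j1 : Integrable (fun p : En n × En n => br p.1 ^ sx n * (H p).re)
      ((volume : Measure (En n)).prod volume) := by
    refine iP₁.mono' ?_ (Filter.Eventually.of_forall fun p => ?_)
    · exact (((continuous_br_rpow _).comp continuous_fst).mul
        (Complex.continuous_re.comp cH)).aestronglyMeasurable
    · rw [norm_mul, Real.norm_eq_abs, Real.norm_eq_abs, abs_of_pos (br_rpow_pos _ _)]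
      exact (mul_le_mul_of_nonneg_left (Complex.abs_re_le_norm _) (br_rpow_pos _ _).le).trans
        (b1 p)
  have j2 : Integrable (fun p : En n × En n => br p.2 ^ sx n * (H p).re)
      ((volume : Measure (En n)).prod volume) := by
    refine iP₁.mono' ?_ (Filter.Eventually.of_forall fun p => ?_)
    · exact (((continuous_br_rpow _).comp continuous_snd).mul
        (Complex.continuous_re.comp cH)).aestronglyMeasurable
    · rw [norm_mul, Real.norm_eq_abs, Real.norm_eq_abs, abs_of_pos (br_rpow_pos _ _)]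
      exact (mul_le_mul_of_nonneg_left (Complex.abs_re_le_norm _) (br_rpow_pos _ _).le).trans
        (b2 p)
  have jH : Integrable H ((volume : Measure (En n)).prod volume) := by
    refine iP₁.mono' cH.aestronglyMeasurable (Filter.Eventually.of_forall fun p => ?_)
    refine le_trans ?_ (b1 p)
    have h1 : (1 : ℝ) ≤ br p.1 ^ sx n :=
      Real.one_le_rpow (one_le_br _) (by unfold sx; positivity)
    nlinarith [norm_nonneg (H p)]
  -- the two integrals
  have e1 : NN (sx n) v = ∫ p : En n × En n, br p.1 ^ sx n * (H p).re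
      ∂((volume : Measure (En n)).prod volume) := by
    rw [integral_prod _ j1]
    unfold NN
    refine integral_congr_ae ?_
    filter_upwards [jH.prod_right_ae] with ζ hζ
    change br ζ ^ sx n * ‖hat v ζ‖ ^ 2 = ∫ ξ, br ζ ^ sx n * (H (ζ, ξ)).re
    rw [integral_const_mul]
    congr 1
    have h1 : ∫ ξ, (H (ζ, ξ)).re = (∫ ξ, H (ζ, ξ)).re := integral_re hζ
    rw [h1]
    simp only [hH]
    rw [integral_const_mul, ← hPu ζ, mul_comm, Complex.mul_conj, Complex.ofReal_re,
      Complex.normSq_eq_norm_sq]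
  have e2 : pair w u = ∫ p : En n × En n, br p.2 ^ sx n * (H p).re
      ∂((volume : Measure (En n)).prod volume) := by
    rw [integral_prod_symm _ j2]
    unfold pair
    refine integral_congr_ae ?_
    filter_upwards [jH.prod_left_ae] with ξ hξ
    change br ξ ^ sx n * ((starRingEnd ℂ) (hat w ξ) * hat u ξ).re =
      ∫ ζ, br ξ ^ sx n * (H (ζ, ξ)).re
    rw [integral_const_mul]
    congr 1
    have h1 : ∫ ζ, (H (ζ, ξ)).re = (∫ ζ, H (ζ, ξ)).re := integral_re hξ
    rw [h1, hPv ξ, ← integral_conj, ← integral_mul_const]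
    congr 2
    ext ζ
    simp only [hH]
    rw [map_mul, hconj, neg_sub]
    ring
  -- conclusion
  have e3 : NN (sx n) v - pair w u ≤
      C * (Real.sqrt (NN (sx n) v) * (∫ a, G a) * Real.sqrt (NN (sx n - 1) u)) := by
    rw [e1, e2, ← integral_sub j1 j2]
    have h1 : ∫ p : En n × En n, (br p.1 ^ sx n * (H p).re - br p.2 ^ sx n * (H p).re)
        ∂((volume : Measure (En n)).prod volume) ≤
        ∫ p : En n × En n, C * (F p.1 * (G (p.1 - p.2) * f p.2))
        ∂((volume : Measure (En n)).prod volume) := by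
      refine integral_mono (j1.sub j2) (iP.const_mul C) fun p => ?_
      change br p.1 ^ sx n * (H p).re - br p.2 ^ sx n * (H p).re ≤
        C * (F p.1 * (G (p.1 - p.2) * f p.2))
      refine le_trans ?_ (b3 p)
      rw [← sub_mul]
      refine (le_abs_self _).trans ?_
      rw [abs_mul]
      exact mul_le_mul_of_nonneg_left (Complex.abs_re_le_norm _) (abs_nonneg _)
    refine h1.trans ?_
    rw [integral_const_mul]
    refine mul_le_mul_of_nonneg_left (hP.trans (le_of_eq ?_)) hC.le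
    rw [← e1]
    have h2 : ∫ x, F x ^ 2 = NN (sx n) v := by
      unfold NN
      simp only [F2]
    have h3 : ∫ x, f x ^ 2 = NN (sx n - 1) u := by
      unfold NN
      simp only [f2]
    rw [h2, h3]
  set X := NN (sx n) v with hX
  set Y := NN (sx n - 1) u with hY
  set A := ∫ a, G a with hA
  have X0 : 0 ≤ X := NN_nonneg _ _
  have Y0 : 0 ≤ Y := NN_nonneg _ _
  have hx := Real.sq_sqrt X0
  have hy := Real.sq_sqrt Y0
  have key : C * (Real.sqrt X * A * Real.sqrt Y) ≤ (1 / 2) * X + (1 / 2) * (C ^ 2 * A ^ 2 * Y) := by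
    have := sq_nonneg (Real.sqrt X - C * A * Real.sqrt Y)
    calc C * (Real.sqrt X * A * Real.sqrt Y)
        = (1 / 2) * (Real.sqrt X ^ 2 + C ^ 2 * A ^ 2 * Real.sqrt Y ^ 2 -
          (Real.sqrt X - C * A * Real.sqrt Y) ^ 2) := by ring
      _ ≤ (1 / 2) * (Real.sqrt X ^ 2 + C ^ 2 * A ^ 2 * Real.sqrt Y ^ 2) := by linarith
      _ = _ := by rw [hx, hy]; ring
  change X ≤ 2 * pair w u + C ^ 2 * A ^ 2 * Y
  linarith

end Pool.Agent.Helper50.MB
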