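import Mathlib

/-!
# Project MB: a pointwise upper bound, statement and proof
-/

namespace Pool.Agent.Helper50.MB

/-- (UPP) From the bound for the tails to a pointwise bound.

Proof.  Write `ψ n = exp (L (n-1) - L n)`, `B n = exp (L n - n ℓ) > 0`, `μ = exp ℓ`; so
`B (n-1) = μ ψ n B n` for `n ≥ 1`.  As in `Pool/Agent/Helper33/Meander/Ratio.lean` (`hit`), for
`n ≥ 1` and all `k`: `(n + k) ψ (n + k) ≤ n ψ n + k`.  Let `μ' = max μ 1`, `c = 1 / (4 μ')`, let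
`n ≥ n0` (`n0` large in terms of `μ'`) and `K = ⌊c √n⌋ ≥ 1`; so `K ≤ n / 4`, `μ' K (K + 1) ≤ n / 2`.
Case 1: `μ ψ n ≥ 1`.  For `0 ≤ k ≤ K`, `hit` (from `n - k`, with `k` steps) gives
`n ψ n ≤ (n - k) ψ (n - k) + k`, so `ψ (n - k) ≥ ψ n - k / (n - k) ≥ 1 / μ - 2 k / n`, and
`B (n - k - 1) / B (n - k) = μ ψ (n - k) ≥ 1 - 2 μ' k / n ≥ 0`.  Multiplying,
`B (n - k - 1) ≥ B n ∏_{j ≤ k} (1 - 2 μ' j / n) ≥ B n (1 - ∑_{j ≤ k} 2 μ' j / n) ≥ B n / 2` (induct on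
`k` with the lower bound `1 - μ' k (k + 1) / n`).  So `K B n / 2 ≤ ∑_{j ∈ [n - K, n)} B j ≤ D / √(n - K)
≤ 2 D / √n`, and `K ≥ c √n / 2`, so `B n ≤ 8 D / (c n)`.
Case 2: `μ ψ n < 1`.  For `1 ≤ k ≤ K`, `ψ (n + k) ≤ (n ψ n + k) / (n + k) ≤ 1 / μ + k / n`, so
`B (n + k) = B (n + k - 1) / (μ ψ (n + k)) ≥ B (n + k - 1) / (1 + μ k / n) ≥ B (n + k - 1) (1 - μ' k / n)`,
hence `B (n + k) ≥ B n / 2`, and `K B n / 2 ≤ ∑_{j ∈ [n, n + K)} B j ≤ D / √n`.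
For `1 ≤ n < n0` use `B n ≤ ∑_{j ∈ [1, n0)} B j ≤ D ≤ D n0 / n` (`D ≥ 0` because the sums are
nonnegative). -/
def UPP : Prop := ∀ (L : ℕ → ℝ) (ℓ D : ℝ),
  (∀ n : ℕ, 1 ≤ n → ((n : ℝ) + 1) * Real.exp (L n - L (n + 1)) ≤
      n * Real.exp (L (n - 1) - L n) + 1) →
  (∀ m K : ℕ, 1 ≤ m → ∑ n ∈ Finset.Ico m K, Real.exp (L n - n * ℓ) ≤ D / Real.sqrt m) →
  ∃ C : ℝ, 0 < C ∧ ∀ n : ℕ, 1 ≤ n → Real.exp (L n - n * ℓ) ≤ C / n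

end Pool.Agent.Helper50.MB
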