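import Mathlib
import Pool.Agent.Helper50.MB.Goals
import Pool.Agent.Helper33.Meander.Exponent

/-!
# Project MB: growth, assembly
-/

namespace Pool.Agent.Helper50.MB

open Filter Topology
open Pool.Agent.Helper33.Meander

/-- Growth with an error for a supermultiplicative sequence satisfying the recursion. -/
theorem growth_abstract (hAN2 : AN2) (hAN3 : AN3) (f : ℕ → ℕ) (hpos : ∀ n, 0 < f n)
    (hsup : ∀ m n, f m * f n ≤ f (m + n)) (hbd : ∀ n, f n ≤ 256 ^ n) {C : ℝ} (hC : 0 < C)
    (hrec : ∀ n : ℕ, 100 ≤ n → ∃ n1 n2 : ℕ, n ≤ 16 * n1 ∧ n ≤ 16 * n2 ∧ n ≤ n1 + n2 ∧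
      ((n1 : ℝ) + n2 ≤ n + C * Real.sqrt n) ∧
      (f n : ℝ) ≤ Real.exp (C * (Real.sqrt n * Real.log n)) * (f n1 * f n2)) :
    ∃ ell : ℝ, 0 ≤ ell ∧
      Tendsto (fun n : ℕ => (f n : ℝ) ^ ((1 : ℝ) / n)) atTop (𝓝 (Real.exp ell)) ∧
      (∀ n : ℕ, Real.log (f n) ≤ n * ell) ∧
      ∃ D : ℝ, 0 < D ∧ ∀ n : ℕ, 2 ≤ n →
        n * ell - D * (Real.sqrt n * Real.log n) ≤ Real.log (f n) := by
  have hposR : ∀ n, (0 : ℝ) < f n := fun n => by exact_mod_cast hpos n
  have hf0 : f 0 = 1 := by
    have h1 := hsup 0 0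
    have h2 := hpos 0
    simp only [add_zero] at h1
    by_contra h
    have h3 : 2 ≤ f 0 := by omega
    nlinarith
  have hL0 : Real.log (f 0) = 0 := by rw [hf0]; simp
  have hLn : ∀ n, 0 ≤ Real.log (f n) := fun n => Real.log_nonneg (by exact_mod_cast hpos n)
  have hLs : ∀ m n, Real.log (f m) + Real.log (f n) ≤ Real.log (f (m + n)) := by
    intro m n
    rw [← Real.log_mul (hposR m).ne' (hposR n).ne']
    apply Real.log_le_log (mul_pos (hposR m) (hposR n))
    exact_mod_cast hsup m n
  have hLle : ∀ n : ℕ, Real.log (f n) ≤ n * Real.log 256 := by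
    intro n
    have h2 : (f n : ℝ) ≤ (256 : ℝ) ^ n := by exact_mod_cast hbd n
    calc Real.log (f n) ≤ Real.log ((256 : ℝ) ^ n) := Real.log_le_log (hposR n) h2
      _ = n * Real.log 256 := by rw [Real.log_pow]
  have hsub : Subadditive (fun n => - Real.log (f n)) := by
    intro a b
    have := hLs a b
    linarith
  have hbdd : BddBelow (Set.range fun n : ℕ => (fun n => - Real.log (f n)) n / n) := by
    refine ⟨-(Real.log 256), ?_⟩
    rintro _ ⟨n, rfl⟩
    have hlog : 0 ≤ Real.log 256 := Real.log_nonneg (by norm_num)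
    rcases Nat.eq_zero_or_pos n with h | h
    · subst h
      simp only [Nat.cast_zero, div_zero]
      linarith
    · have hn : (0 : ℝ) < n := by exact_mod_cast h
      have h1 := hLle n
      simp only
      rw [le_div_iff₀ hn]
      nlinarith
  obtain ⟨ell, hell⟩ : ∃ ell : ℝ, ell = - hsub.lim := ⟨_, rfl⟩
  have hlim : Tendsto (fun n : ℕ => Real.log (f n) / n) atTop (𝓝 ell) := by
    rw [hell]
    have h := (hsub.tendsto_lim hbdd).neg
    refine h.congr fun n => ?_
    ring
  have hle : ∀ n : ℕ, Real.log (f n) ≤ n * ell := by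
    intro n
    rcases Nat.eq_zero_or_pos n with h | h
    · subst h
      rw [hL0]
      simp
    · have h1 := hsub.lim_le_div hbdd (n := n) (by omega)
      have hn : (0 : ℝ) < n := by exact_mod_cast h
      rw [le_div_iff₀ hn] at h1
      rw [hell]
      linarith
  have hell0 : 0 ≤ ell := by
    have h1 := hle 1
    have h2 := hLn 1
    simp only [Nat.cast_one, one_mul] at h1
    linarith
  refine ⟨ell, hell0, ?_, hle, ?_⟩
  · have h2 := (Real.continuous_exp.tendsto ell).comp hlim
    refine h2.congr' ?_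
    filter_upwards [eventually_ge_atTop 1] with n hn
    simp only [Function.comp]
    have hn' : (0 : ℝ) < n := by exact_mod_cast hn
    rw [Real.rpow_def_of_pos (hposR n)]
    congr 1
    ring
  · -- the deficit
    obtain ⟨g, hg⟩ : ∃ g : ℕ → ℝ, g = fun n : ℕ => n * ell - Real.log (f n) := ⟨_, rfl⟩
    have hg0 : ∀ n, 0 ≤ g n := by
      intro n
      rw [hg]
      have := hle n
      simp only
      linarith
    have hgs : ∀ m n, g (m + n) ≤ g m + g n := by
      intro m n
      rw [hg]
      simp only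
      have := hLs m n
      push_cast
      linarith
    have hgt : Tendsto (fun n : ℕ => g n / n) atTop (𝓝 0) := by
      have h1 : Tendsto (fun n : ℕ => ell - Real.log (f n) / n) atTop (𝓝 (ell - ell)) :=
        tendsto_const_nhds.sub hlim
      rw [sub_self] at h1
      refine h1.congr' ?_
      filter_upwards [eventually_ge_atTop 1] with n hn
      have hn' : (n : ℝ) ≠ 0 := by
        have : (0 : ℝ) < n := by exact_mod_cast hn
        exact this.ne'
      rw [hg]
      simp only
      field_simp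
    have hC1 : 0 < C * (ell + 1) := by positivity
    have key := hAN2 g (C * (ell + 1)) hC1 hg0 hgt ?_
    · obtain ⟨D, hD, h⟩ := hAN3 g hg0 hgs key
      refine ⟨D, hD, fun n hn => ?_⟩
      have := h n hn
      rw [hg] at this
      simp only at this
      linarith
    · intro n hn
      obtain ⟨n1, n2, h1, h2, h3, h4, h5⟩ := hrec n hn
      refine ⟨n1, n2, h1, h2, h3, ?_, ?_⟩
      · refine le_trans h4 ?_
        have : C * Real.sqrt n ≤ C * (ell + 1) * Real.sqrt n := by
          apply mul_le_mul_of_nonneg_right _ (Real.sqrt_nonneg _)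
          nlinarith
        linarith
      · have h6 : Real.log (f n) ≤ C * (Real.sqrt n * Real.log n) +
            (Real.log (f n1) + Real.log (f n2)) := by
          have := Real.log_le_log (hposR n) h5
          rw [Real.log_mul (Real.exp_pos _).ne' (mul_pos (hposR n1) (hposR n2)).ne', Real.log_exp,
            Real.log_mul (hposR n1).ne' (hposR n2).ne'] at this
          exact this
        rw [hg]
        simp only
        have hs : 0 ≤ Real.sqrt n := Real.sqrt_nonneg _
        have hlog : 1 ≤ Real.log n := by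
          rw [Real.le_log_iff_exp_le (by
            have : (100 : ℝ) ≤ n := by exact_mod_cast hn
            linarith)]
          have : (100 : ℝ) ≤ n := by exact_mod_cast hn
          have := Real.exp_one_lt_d9
          linarith
        have h7 : ((n1 : ℝ) + n2) * ell ≤ n * ell + C * Real.sqrt n * ell := by
          have := mul_le_mul_of_nonneg_right h4 hell0
          linarith
        have h8 : C * Real.sqrt n * ell ≤ C * ell * (Real.sqrt n * Real.log n) := by
          have : C * ell * Real.sqrt n * 1 ≤ C * ell * Real.sqrt n * Real.log n :=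
            mul_le_mul_of_nonneg_left hlog (by positivity)
          linarith
        linarith

/-- Meanders satisfy the hypotheses. -/
theorem growth_meanders (hAN2 : AN2) (hAN3 : AN3) (hREC : REC) (hSUP : SUP) (hMM : MM)
    (hPOS : POS) : ∃ ell : ℝ, 0 ≤ ell ∧
      Tendsto (fun n : ℕ => (meanders n : ℝ) ^ ((1 : ℝ) / n)) atTop (𝓝 (Real.exp ell)) ∧
      (∀ n : ℕ, Real.log (meanders n) ≤ n * ell) ∧
      ∃ D : ℝ, 0 < D ∧ ∀ n : ℕ, 2 ≤ n →
        n * ell - D * (Real.sqrt n * Real.log n) ≤ Real.log (meanders n) := by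
  obtain ⟨C, hC, hR⟩ := hREC
  refine growth_abstract hAN2 hAN3 meanders (fun n => by rw [← hMM.1 n]; exact hPOS.2 n)
    (fun m n => ?_) (fun n => ?_) (C := 4 * C) (by positivity) (fun n hn => ?_)
  · rw [← hMM.1 m, ← hMM.1 n, ← hMM.1 (m + n), mul_add]
    exact hSUP true (2 * m) (2 * n)
  · exact (meanders_le n).trans (Nat.pow_le_pow_left (by norm_num) n)
  · obtain ⟨N1, N2, h1, h2, h3, h4, h5⟩ := hR true (2 * n) (by omega) (hPOS.2 n)
    have hp : 0 < cT true N1 * cT true N2 := by
      by_contra h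
      have h' : cT true N1 * cT true N2 = 0 := by omega
      have h6 : ((cT true N1 : ℝ) * cT true N2) = 0 := by exact_mod_cast h'
      rw [h6, mul_zero] at h5
      have := hPOS.2 n
      have h7 : (0 : ℝ) < cT true (2 * n) := by exact_mod_cast this
      linarith
    have e1 : N1 % 2 = 0 := by
      by_contra h
      obtain ⟨k, hk⟩ : ∃ k, N1 = 2 * k + 1 := ⟨N1 / 2, by omega⟩
      rw [hk, hMM.2 k] at hp
      simp at hp
    have e2 : N2 % 2 = 0 := by
      by_contra h
      obtain ⟨k, hk⟩ : ∃ k, N2 = 2 * k + 1 := ⟨N2 / 2, by omega⟩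
      rw [hk, hMM.2 k] at hp
      simp at hp
    obtain ⟨n1, rfl⟩ : ∃ k, N1 = 2 * k := ⟨N1 / 2, by omega⟩
    obtain ⟨n2, rfl⟩ : ∃ k, N2 = 2 * k := ⟨N2 / 2, by omega⟩
    rw [hMM.1 n, hMM.1 n1, hMM.1 n2] at h5
    have hn100 : (100 : ℝ) ≤ n := by exact_mod_cast hn
    have hsq : Real.sqrt ((2 * n : ℕ) : ℝ) ≤ 2 * Real.sqrt n := by
      rw [Real.sqrt_le_left (by positivity)]
      push_cast
      rw [mul_pow, Real.sq_sqrt (by positivity)]
      linarith
    have hlg : Real.log ((2 * n : ℕ) : ℝ) ≤ 2 * Real.log n := by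
      push_cast
      rw [Real.log_mul (by norm_num) (by positivity)]
      have : Real.log 2 ≤ Real.log n := Real.log_le_log (by norm_num) (by linarith)
      linarith
    have hlg0 : 0 ≤ Real.log ((2 * n : ℕ) : ℝ) := Real.log_nonneg (by push_cast; linarith)
    refine ⟨n1, n2, by omega, by omega, by omega, ?_, ?_⟩
    · push_cast at h4
      have h8 : C * Real.sqrt ((2 * n : ℕ) : ℝ) ≤ C * (2 * Real.sqrt n) :=
        mul_le_mul_of_nonneg_left hsq hC.le
      push_cast at h8
      have h9 : 0 ≤ C * Real.sqrt n := by positivity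
      linarith
    · refine h5.trans ?_
      apply mul_le_mul_of_nonneg_right _ (by positivity)
      apply Real.exp_le_exp.2
      calc C * Real.sqrt ((2 * n : ℕ) : ℝ) * Real.log ((2 * n : ℕ) : ℝ)
          ≤ C * (2 * Real.sqrt n) * (2 * Real.log n) := by
            apply mul_le_mul (mul_le_mul_of_nonneg_left hsq hC.le) hlg hlg0 (by positivity)
        _ = 4 * C * (Real.sqrt n * Real.log n) := by ring

/-- Semi-meanders satisfy the hypotheses. -/
theorem growth_semi (hAN2 : AN2) (hAN3 : AN3) (hREC : REC) (hSUP : SUP) (hMSM : MSM)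
    (hFIN : FIN) (hPOS : POS) : ∃ ell : ℝ, 0 ≤ ell ∧
      Tendsto (fun n : ℕ => (semimeanders n : ℝ) ^ ((1 : ℝ) / n)) atTop (𝓝 (Real.exp ell)) ∧
      (∀ n : ℕ, Real.log (semimeanders n) ≤ n * ell) ∧
      ∃ D : ℝ, 0 < D ∧ ∀ n : ℕ, 2 ≤ n →
        n * ell - D * (Real.sqrt n * Real.log n) ≤ Real.log (semimeanders n) := by
  obtain ⟨C, hC, hR⟩ := hREC
  refine growth_abstract hAN2 hAN3 semimeanders (fun n => by rw [← hMSM n]; exact hPOS.1 n)
    (fun m n => ?_) (fun n => ?_) (C := C) hC (fun n hn => ?_)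
  · rw [← hMSM m, ← hMSM n, ← hMSM (m + n)]
    exact hSUP false m n
  · rw [← hMSM n]
    exact (hFIN false n).2.trans (Nat.pow_le_pow_left (by norm_num) n)
  · obtain ⟨n1, n2, h1, h2, h3, h4, h5⟩ := hR false n (by omega) (hPOS.1 n)
    rw [hMSM n, hMSM n1, hMSM n2] at h5
    refine ⟨n1, n2, h1, h2, h3, h4, ?_⟩
    rw [show C * (Real.sqrt n * Real.log n) = C * Real.sqrt n * Real.log n by ring]
    exact h5

end Pool.Agent.Helper50.MB
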