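import Mathlib
import Pool.Agent.Helper50.MB.Growth

/-!
# Project MB: the ratio limit with a rate, assembly
-/

namespace Pool.Agent.Helper50.MB

open Filter Topology
open Pool.Agent.Helper33.Meander

lemma L_step (n : ℕ) (hn : 1 ≤ n) : ((n : ℝ) + 1) * Real.exp (L n - L (n + 1)) ≤
    n * Real.exp (L (n - 1) - L n) + 1 := by
  have h := main_ineq (n + 1) (by omega)
  rw [show 2 * (n + 1) - 1 = 2 * n + 1 by omega, show 2 * (n + 1 + 1) - 1 = 2 * (n + 1) + 1 by omega,
    show n + 1 - 1 = n by omega, show 2 * n - 1 = 2 * (n - 1) + 1 by omega] at h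
  have h' : ((n : ℝ) + 1) * (f (2 * n + 1) : ℝ) ^ 2 ≤
      (f (2 * (n + 1) + 1) : ℝ) * (n * (f (2 * (n - 1) + 1) : ℝ) + f (2 * n + 1)) := by
    exact_mod_cast h
  unfold L
  have p0 := fR_pos (2 * (n - 1) + 1)
  have p1 := fR_pos (2 * n + 1)
  have p2 := fR_pos (2 * (n + 1) + 1)
  rw [Real.exp_sub, Real.exp_sub, Real.exp_log p0, Real.exp_log p1, Real.exp_log p2]
  have e1 : ((n : ℝ) + 1) * ((f (2 * n + 1) : ℝ) / f (2 * (n + 1) + 1)) =
      (((n : ℝ) + 1) * (f (2 * n + 1) : ℝ) ^ 2) / (f (2 * (n + 1) + 1) * f (2 * n + 1)) := by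
    field_simp
  have e2 : (n : ℝ) * ((f (2 * (n - 1) + 1) : ℝ) / f (2 * n + 1)) + 1 =
      ((f (2 * (n + 1) + 1) : ℝ) * (n * (f (2 * (n - 1) + 1) : ℝ) + f (2 * n + 1))) /
        (f (2 * (n + 1) + 1) * f (2 * n + 1)) := by
    field_simp
  rw [e1, e2]
  exact div_le_div_of_nonneg_right h' (by positivity)

lemma log_meanders_succ (n : ℕ) : Real.log (meanders (n + 1)) = L n := by
  rw [meanders_succ, Real.log_exp]

/-- The ratio limit with a rate. -/
theorem rate_meanders (hRATE : RATE)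
    (hG : ∃ ell : ℝ, 0 ≤ ell ∧
      Tendsto (fun n : ℕ => (meanders n : ℝ) ^ ((1 : ℝ) / n)) atTop (𝓝 (Real.exp ell)) ∧
      (∀ n : ℕ, Real.log (meanders n) ≤ n * ell) ∧
      ∃ D : ℝ, 0 < D ∧ ∀ n : ℕ, 2 ≤ n →
        n * ell - D * (Real.sqrt n * Real.log n) ≤ Real.log (meanders n)) :
    ∃ C : ℝ, 0 < C ∧ ∀ n : ℕ, 2 ≤ n →
      |(meanders (n + 1) : ℝ) / meanders n - mu| ≤
        C * ((n : ℝ) ^ (-(1 / 4 : ℝ)) * Real.sqrt (Real.log n)) := by
  obtain ⟨ell', -, ht, -, D, hD, hlow⟩ := hG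
  have hell : ell' = ell := by
    have := tendsto_nhds_unique ht tendsto_root
    exact Real.exp_injective this
  subst hell
  have hlow' : ∀ n : ℕ, 2 ≤ n → n * ell - D * (Real.sqrt n * Real.log n) ≤ L n := by
    intro n hn
    have h1 := hlow n hn
    obtain ⟨k, rfl⟩ : ∃ k, n = k + 1 := ⟨n - 1, by omega⟩
    rw [log_meanders_succ] at h1
    have h2 := L_super k 1
    have h3 := L_nonneg 1
    linarith
  obtain ⟨C, hC, hR⟩ := hRATE L ell D L_le_ell hlow' (fun n hn => L_step n hn)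
  -- the function n ^ (-1/4) sqrt (log n)
  obtain ⟨r, hr⟩ : ∃ r : ℕ → ℝ, r = fun n : ℕ => (n : ℝ) ^ (-(1 / 4 : ℝ)) *
    Real.sqrt (Real.log n) := ⟨_, rfl⟩
  have hr0 : ∀ n, 0 ≤ r n := by
    intro n
    rw [hr]
    positivity
  have hr1 : ∀ n : ℕ, 2 ≤ n → r n ≤ 1 := by
    intro n hn
    have hn' : (2 : ℝ) ≤ n := by exact_mod_cast hn
    have hn0 : (0 : ℝ) < n := by linarith
    rw [hr]
    simp only
    have h1 : Real.log n ≤ (n : ℝ) ^ (1 / 2 : ℝ) := by
      -- log n = 4 log (n^(1/4)) ... use log x ≤ x / e-type bound: log (n^(1/4)) ≤ n^(1/4) / e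
      have h2 : Real.log ((n : ℝ) ^ (1 / 2 : ℝ) / Real.exp 1) ≤
          (n : ℝ) ^ (1 / 2 : ℝ) / Real.exp 1 - 1 :=
        Real.log_le_sub_one_of_pos (by positivity)
      rw [Real.log_div (by positivity) (Real.exp_pos _).ne', Real.log_exp,
        Real.log_rpow hn0] at h2
      have h3 : Real.log n ≤ 2 * ((n : ℝ) ^ (1 / 2 : ℝ) / Real.exp 1) := by linarith
      have h4 : (2 : ℝ) < Real.exp 1 := by
        have := Real.exp_one_gt_d9
        linarith
      refine h3.trans ?_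
      rw [mul_div_assoc', div_le_iff₀ (Real.exp_pos _)]
      have : 0 < (n : ℝ) ^ (1 / 2 : ℝ) := by positivity
      nlinarith
    have h2 : Real.sqrt (Real.log n) ≤ (n : ℝ) ^ (1 / 4 : ℝ) := by
      rw [Real.sqrt_le_left (by positivity)]
      refine h1.trans (le_of_eq ?_)
      rw [← Real.rpow_natCast, ← Real.rpow_mul hn0.le]
      norm_num
    calc (n : ℝ) ^ (-(1 / 4 : ℝ)) * Real.sqrt (Real.log n)
        ≤ (n : ℝ) ^ (-(1 / 4 : ℝ)) * (n : ℝ) ^ (1 / 4 : ℝ) :=
          mul_le_mul_of_nonneg_left h2 (by positivity)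
      _ = 1 := by rw [← Real.rpow_add hn0]; norm_num
  have hrs : ∀ n : ℕ, 2 ≤ n → r n ≤ 2 * r (n + 1) := by
    intro n hn
    have hn' : (2 : ℝ) ≤ n := by exact_mod_cast hn
    have hn0 : (0 : ℝ) < n := by linarith
    rw [hr]
    simp only
    push_cast
    have h1 : (n : ℝ) ^ (-(1 / 4 : ℝ)) ≤ 2 * ((n : ℝ) + 1) ^ (-(1 / 4 : ℝ)) := by
      have h2 : (n : ℝ) ^ (-(1 / 4 : ℝ)) = 2 * ((16 : ℝ) * n) ^ (-(1 / 4 : ℝ)) := by
        rw [Real.mul_rpow (by norm_num) hn0.le, show (16 : ℝ) = 2 ^ (4 : ℝ) by norm_num,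
          ← Real.rpow_mul (by norm_num)]
        norm_num
        ring
      rw [h2]
      apply mul_le_mul_of_nonneg_left _ (by norm_num)
      apply Real.rpow_le_rpow_of_nonpos (by positivity) (by linarith) (by norm_num)
    have h3 : Real.sqrt (Real.log n) ≤ Real.sqrt (Real.log ((n : ℝ) + 1)) :=
      Real.sqrt_le_sqrt (Real.log_le_log hn0 (by linarith))
    calc (n : ℝ) ^ (-(1 / 4 : ℝ)) * Real.sqrt (Real.log n)
        ≤ (2 * ((n : ℝ) + 1) ^ (-(1 / 4 : ℝ))) * Real.sqrt (Real.log ((n : ℝ) + 1)) :=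
          mul_le_mul h1 h3 (Real.sqrt_nonneg _) (by positivity)
      _ = _ := by ring
  -- from differences of logarithms to ratios
  have key : ∀ n : ℕ, 2 ≤ n → |(meanders (n + 2) : ℝ) / meanders (n + 1) - mu| ≤
      mu * (C * Real.exp C) * r n := by
    intro n hn
    have h1 := hR n hn
    rw [show (n + 2) = (n + 1) + 1 by ring, meanders_succ, meanders_succ, ← Real.exp_sub]
    obtain ⟨δ, hδ⟩ : ∃ δ : ℝ, δ = L (n + 1) - L n - ell := ⟨_, rfl⟩
    have e1 : L (n + 1) - L n = ell + δ := by rw [hδ]; ring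
    rw [← hδ] at h1
    have h1' : |δ| ≤ C * r n := by rw [hr]; exact h1
    have h2 : |δ| ≤ C := by
      have := mul_le_mul_of_nonneg_left (hr1 n hn) hC.le
      linarith
    rw [e1, Real.exp_add, mu]
    have h3 : |Real.exp δ - 1| ≤ |δ| * Real.exp |δ| := by
      rcases le_total 0 δ with h | h
      · rw [abs_of_nonneg h, abs_of_nonneg (by linarith [Real.one_le_exp h])]
        have := Real.add_one_le_exp (-δ)
        have h4 : Real.exp (-δ) * Real.exp δ = 1 := by rw [← Real.exp_add]; simp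
        have h5 := Real.exp_pos δ
        nlinarith
      · rw [abs_of_nonpos h, abs_of_nonpos (by
          have := Real.exp_le_one_iff.2 h
          linarith)]
        have h4 := Real.add_one_le_exp δ
        have h5 : 1 ≤ Real.exp (-δ) := Real.one_le_exp (by linarith)
        nlinarith
    have h4 : Real.exp |δ| ≤ Real.exp C := Real.exp_le_exp.2 h2
    calc |Real.exp ell * Real.exp δ - Real.exp ell| = Real.exp ell * |Real.exp δ - 1| := by
          rw [show Real.exp ell * Real.exp δ - Real.exp ell = Real.exp ell * (Real.exp δ - 1) by ring,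
            abs_mul, abs_of_pos (Real.exp_pos _)]
      _ ≤ Real.exp ell * (|δ| * Real.exp |δ|) := mul_le_mul_of_nonneg_left h3 (Real.exp_pos _).le
      _ ≤ Real.exp ell * ((C * r n) * Real.exp C) := by
          apply mul_le_mul_of_nonneg_left _ (Real.exp_pos _).le
          exact mul_le_mul h1' h4 (Real.exp_pos _).le (mul_nonneg hC.le (hr0 n))
      _ = Real.exp ell * (C * Real.exp C) * r n := by ring
  have hr2 : 0 < r 2 := by
    rw [hr]
    simp only
    have : 0 < Real.log ((2 : ℕ) : ℝ) := Real.log_pos (by norm_num)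
    positivity
  obtain ⟨A, hA⟩ : ∃ A : ℝ, A = |(meanders (2 + 1) : ℝ) / meanders 2 - mu| / r 2 := ⟨_, rfl⟩
  have hA0 : 0 ≤ A := by rw [hA]; positivity
  have hmu := mu_pos
  refine ⟨2 * (mu * (C * Real.exp C)) + A, by positivity, fun n hn => ?_⟩
  change _ ≤ _ * ((fun n : ℕ => (n : ℝ) ^ (-(1 / 4 : ℝ)) * Real.sqrt (Real.log n)) n)
  rw [← hr]
  rcases Nat.lt_or_ge n 3 with h | h
  · have h2 : n = 2 := by omega
    subst h2
    have e : |(meanders (2 + 1) : ℝ) / meanders 2 - mu| = A * r 2 := by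
      rw [hA, div_mul_cancel₀ _ hr2.ne']
    rw [e]
    apply mul_le_mul_of_nonneg_right _ hr2.le
    have : 0 ≤ 2 * (mu * (C * Real.exp C)) := by positivity
    linarith
  · obtain ⟨k, rfl⟩ : ∃ k, n = k + 1 := ⟨n - 1, by omega⟩
    have h1 := key k (by omega)
    have h2 := hrs k (by omega)
    calc |(meanders (k + 1 + 1) : ℝ) / meanders (k + 1) - mu| ≤ mu * (C * Real.exp C) * r k := h1
      _ ≤ mu * (C * Real.exp C) * (2 * r (k + 1)) :=
          mul_le_mul_of_nonneg_left h2 (by positivity)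
      _ = 2 * (mu * (C * Real.exp C)) * r (k + 1) := by ring
      _ ≤ (2 * (mu * (C * Real.exp C)) + A) * r (k + 1) := by
          apply mul_le_mul_of_nonneg_right _ (hr0 _)
          linarith

end Pool.Agent.Helper50.MB
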