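import Mathlib
import Pool.Agent.Helper50.MB.Rate
import Pool.Agent.Helper50.MB.Goals2
import Pool.Agent.Helper50.MB.BFSown
import Pool.Agent.Helper86.MB.TREE
import Pool.Agent.Helper5.MB.EV
import Pool.Agent.Helper87.MB.FC
import Pool.Agent.Helper24.MB.TC
import Pool.Agent.Helper83.MB.LV
import Pool.Agent.Helper54.MB.SEP
import Pool.Agent.Helper35.MB.ENC
import Pool.Agent.Helper19.MB.GE
import Pool.Agent.Helper30.MB.GLH
import Pool.Agent.Helper12.MB.CUT
import Pool.Agent.Helper53.MB.PAR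
import Pool.Agent.Helper33.MB.TRI
import Pool.Agent.Helper80.MB.TRZ
import Pool.Agent.Helper80.MB.CTR
import Pool.Agent.Helper80.MB.CONt
import Pool.Agent.Helper97.MB.SURG
import Pool.Agent.Helper25.MB.COMP
import Pool.Agent.Helper80.MB.DEC
import Pool.Agent.Helper22.MB.SUBS
import Pool.Agent.Helper35.MB.FIN
import Pool.Agent.Helper2.MB.COD
import Pool.Agent.Helper56.MB.RECA
import Pool.Agent.Helper56.MB.REC
import Pool.Agent.Helper88.MB.SUP
import Pool.Agent.Helper52.MB.MSM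
import Pool.Agent.Helper52.MB.MM
import Pool.Agent.Helper49.MB.POS
import Pool.Agent.Helper59.MB.AN1
import Pool.Agent.Helper85.MB.AN2
import Pool.Agent.Helper91.MB.AN3
import Pool.Agent.Helper5.MB.RATE
import Pool.Agent.Helper14.MB.UPP

/-!
# Project MB: final theorems
-/

namespace Pool.Agent.Helper50.MB

open Filter Topology
open Pool.Agent.Helper33.Meander

theorem pBFS : BFS := own_BFS
theorem pTREE : TREE := Pool.Agent.Helper86.MB.goalTREE
theorem pEV : EV := Pool.Agent.Helper5.MB.goalEV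
theorem pFC : FC := Pool.Agent.Helper87.MB.goalFC pBFS pTREE pEV
theorem pTC : TC := Pool.Agent.Helper24.MB.goalTC pTREE
theorem pSEP : SEP := Pool.Agent.Helper54.MB.goalSEP pFC pTC Pool.Agent.Helper83.MB.goalLV
theorem pCUT : CUT := Pool.Agent.Helper12.MB.goalCUT pSEP Pool.Agent.Helper35.MB.goalENC
  Pool.Agent.Helper19.MB.goalGE Pool.Agent.Helper30.MB.goalGLH
theorem pTRZ : TRZ := Pool.Agent.Helper80.MB.goalTRZ Pool.Agent.Helper33.MB.goalTRI
  Pool.Agent.Helper53.MB.goalPAR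
theorem pSURG : SURG := Pool.Agent.Helper97.MB.goalSURG pTRZ Pool.Agent.Helper80.MB.goalCTR
  Pool.Agent.Helper80.MB.goalCON
theorem pCOMP : COMP := Pool.Agent.Helper25.MB.goalCOMP pSURG
theorem pFIN : FIN := Pool.Agent.Helper35.MB.goalFIN
theorem pCOD : COD := Pool.Agent.Helper2.MB.goalCOD Pool.Agent.Helper80.MB.goalDEC
  Pool.Agent.Helper22.MB.goalSUBS pFIN
theorem pRECA : RECA := Pool.Agent.Helper56.MB.goalRECA pCUT pCOMP pCOD pFIN
theorem pREC : REC := Pool.Agent.Helper56.MB.goalREC pRECA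
theorem pSUP : SUP := Pool.Agent.Helper88.MB.goalSUP pFIN
theorem pPOS : POS := Pool.Agent.Helper49.MB.goalPOS pSUP pFIN
theorem pAN2 : AN2 := Pool.Agent.Helper85.MB.goalAN2 Pool.Agent.Helper59.MB.goalAN1
theorem pAN3 : AN3 := Pool.Agent.Helper91.MB.goalAN3

theorem growthM : ∃ ell : ℝ, 0 ≤ ell ∧
      Tendsto (fun n : ℕ => (meanders n : ℝ) ^ ((1 : ℝ) / n)) atTop (𝓝 (Real.exp ell)) ∧
      (∀ n : ℕ, Real.log (meanders n) ≤ n * ell) ∧
      ∃ D : ℝ, 0 < D ∧ ∀ n : ℕ, 2 ≤ n →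
        n * ell - D * (Real.sqrt n * Real.log n) ≤ Real.log (meanders n) :=
  growth_meanders pAN2 pAN3 pREC pSUP Pool.Agent.Helper52.MB.goalMM pPOS

theorem growthS : ∃ ell : ℝ, 0 ≤ ell ∧
      Tendsto (fun n : ℕ => (semimeanders n : ℝ) ^ ((1 : ℝ) / n)) atTop (𝓝 (Real.exp ell)) ∧
      (∀ n : ℕ, Real.log (semimeanders n) ≤ n * ell) ∧
      ∃ D : ℝ, 0 < D ∧ ∀ n : ℕ, 2 ≤ n →
        n * ell - D * (Real.sqrt n * Real.log n) ≤ Real.log (semimeanders n) :=
  growth_semi pAN2 pAN3 pREC pSUP Pool.Agent.Helper52.MB.goalMSM pFIN pPOS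

/-- The ratio limit with a rate. -/
theorem ratio_rate : ∃ (μ C : ℝ), 1 ≤ μ ∧
    Tendsto (fun n : ℕ => (meanders n : ℝ) ^ ((1 : ℝ) / n)) atTop (𝓝 μ) ∧
    ∀ n : ℕ, 2 ≤ n → |(meanders (n + 1) : ℝ) / meanders n - μ| ≤
      C * ((n : ℝ) ^ (-(1 / 4 : ℝ)) * Real.sqrt (Real.log n)) := by
  obtain ⟨C, _, h⟩ := rate_meanders Pool.Agent.Helper5.MB.goalRATE growthM
  exact ⟨mu, C, one_le_mu, tendsto_root, h⟩

lemma meanders_pos' (n : ℕ) : (0 : ℝ) < meanders n := by
  have := pPOS.2 n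
  rw [Pool.Agent.Helper52.MB.goalMM.1 n] at this
  exact_mod_cast this

lemma semimeanders_pos' (n : ℕ) : (0 : ℝ) < semimeanders n := by
  have := pPOS.1 n
  rw [Pool.Agent.Helper52.MB.goalMSM n] at this
  exact_mod_cast this

/-- Two-sided bounds for meanders. -/
theorem meander_bounds : ∃ (μ C : ℝ), 1 ≤ μ ∧
    Tendsto (fun n : ℕ => (meanders n : ℝ) ^ ((1 : ℝ) / n)) atTop (𝓝 μ) ∧
    ∀ n : ℕ, 2 ≤ n → μ ^ n * Real.exp (-(C * (Real.sqrt n * Real.log n))) ≤ meanders n ∧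
      (meanders n : ℝ) ≤ C * μ ^ n / n := by
  obtain ⟨ell', -, ht, -, D, hD, hlow⟩ := growthM
  have hell : ell' = ell := Real.exp_injective (tendsto_nhds_unique ht tendsto_root)
  subst hell
  have hmu := mu_pos
  have hmu1 := one_le_mu
  -- upper bound
  have hstep := L_step
  have htail : ∀ m K : ℕ, 1 ≤ m → ∑ n ∈ Finset.Ico m K, Real.exp (L n - n * ell) ≤
      (mu * (20 * Real.sqrt mu)) / Real.sqrt m := by
    intro m K hm
    have h1 := meanders_tail m K hm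
    have h2 : ∀ n : ℕ, Real.exp (L n - n * ell) = mu * ((meanders (n + 1) : ℝ) / mu ^ (n + 1)) := by
      intro n
      rw [meanders_succ, Real.exp_sub, Real.exp_nat_mul]
      change _ = mu * (Real.exp (L n) / mu ^ (n + 1))
      rw [mu, pow_succ]
      field_simp
    simp_rw [h2]
    rw [← Finset.mul_sum]
    calc mu * ∑ n ∈ Finset.Ico m K, (meanders (n + 1) : ℝ) / mu ^ (n + 1)
        ≤ mu * (20 * Real.sqrt mu / Real.sqrt m) := mul_le_mul_of_nonneg_left h1 hmu.le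
      _ = _ := by ring
  obtain ⟨C1, hC1, hup⟩ := Pool.Agent.Helper14.MB.goalUPP L ell _ hstep htail
  refine ⟨mu, D + 2 * C1, hmu1, tendsto_root, fun n hn => ⟨?_, ?_⟩⟩
  · have h1 := hlow n hn
    have h2 : mu ^ n * Real.exp (-(D * (Real.sqrt n * Real.log n))) ≤ meanders n := by
      rw [← Real.exp_log (meanders_pos' n), mu, ← Real.exp_nat_mul, ← Real.exp_add]
      apply Real.exp_le_exp.2
      linarith
    refine le_trans ?_ h2
    apply mul_le_mul_of_nonneg_left _ (by positivity)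
    apply Real.exp_le_exp.2
    have h3 : 0 ≤ Real.log n := Real.log_nonneg (by
      have : (2 : ℝ) ≤ n := by exact_mod_cast hn
      linarith)
    have h4 : 0 ≤ Real.sqrt n * Real.log n := by positivity
    nlinarith
  · obtain ⟨k, rfl⟩ : ∃ k, n = k + 1 := ⟨n - 1, by omega⟩
    have h1 := hup k (by omega)
    have hk : (1 : ℝ) ≤ k := by
      have : 1 ≤ k := by omega
      exact_mod_cast this
    rw [Real.exp_sub, Real.exp_nat_mul, ← meanders_succ] at h1
    change (meanders (k + 1) : ℝ) / mu ^ k ≤ C1 / k at h1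
    have hp : 0 < mu ^ k := by positivity
    rw [div_le_iff₀ hp] at h1
    refine h1.trans ?_
    push_cast
    rw [div_mul_eq_mul_div, div_le_div_iff₀ (by linarith) (by linarith)]
    have h5 : C1 * mu ^ k * (k + 1) ≤ C1 * mu ^ k * (2 * k) :=
      mul_le_mul_of_nonneg_left (by linarith) (by positivity)
    have h6 : mu ^ k ≤ mu ^ (k + 1) := pow_le_pow_right₀ hmu1 (by omega)
    have h7 : C1 * mu ^ k * (2 * k) ≤ C1 * mu ^ (k + 1) * (2 * k) := by
      apply mul_le_mul_of_nonneg_right _ (by linarith)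
      exact mul_le_mul_of_nonneg_left h6 hC1.le
    have h8 : 0 ≤ D * mu ^ (k + 1) * k := by positivity
    nlinarith

/-- Bounds for semi-meanders. -/
theorem semimeander_bounds : ∃ (ν C : ℝ), 1 ≤ ν ∧
    Tendsto (fun n : ℕ => (semimeanders n : ℝ) ^ ((1 : ℝ) / n)) atTop (𝓝 ν) ∧
    ∀ n : ℕ, 2 ≤ n → ν ^ n * Real.exp (-(C * (Real.sqrt n * Real.log n))) ≤ semimeanders n ∧
      (semimeanders n : ℝ) ≤ ν ^ n := by
  obtain ⟨ell', h0, ht, hle, D, hD, hlow⟩ := growthS
  refine ⟨Real.exp ell', D, Real.one_le_exp h0, ht, fun n hn => ⟨?_, ?_⟩⟩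
  · have h1 := hlow n hn
    rw [← Real.exp_log (semimeanders_pos' n), ← Real.exp_nat_mul, ← Real.exp_add]
    apply Real.exp_le_exp.2
    linarith
  · rw [← Real.exp_log (semimeanders_pos' n), ← Real.exp_nat_mul]
    exact Real.exp_le_exp.2 (hle n)

end Pool.Agent.Helper50.MB
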